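import Mathlib
import Pool.Graph.R_seed8.Y947.DP.Fin

/-!
# The energy inequality for a family of complex polynomials, with individual contractions
-/

set_option autoImplicit false

open Finset Metric Pool.Agent.H388SL Pool.Agent.Y947.DL Pool.Agent.Y947.DP

namespace Pool.Agent.Helper99.TD

lemma refl_circle {x α : ℂ} (hx : ‖x‖ = 1) : ‖1 - x * starRingEnd ℂ (refl α)‖ ≤ ‖x - α‖ := by
  have hx0 : x ≠ 0 := by
    rintro rfl
    simp at hx
  have hxx : x * starRingEnd ℂ x = 1 := by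
    rw [Complex.mul_conj, Complex.normSq_eq_norm_sq, hx]
    norm_num
  unfold H388SL.refl
  by_cases h : ‖α‖ ≤ 1
  · rw [if_pos h]
    apply le_of_eq
    have h1 : 1 - x * starRingEnd ℂ α = x * starRingEnd ℂ (x - α) := by
      rw [map_sub, mul_sub, hxx]
    rw [h1, norm_mul, hx, one_mul, RCLike.norm_conj]
  · rw [if_neg h]
    push Not at h
    have hα0 : α ≠ 0 := by
      rintro rfl
      simp at h
      linarith
    rw [map_inv₀, Complex.conj_conj]
    have h1 : 1 - x * α⁻¹ = (α - x) * α⁻¹ := by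
      field_simp
    rw [h1, norm_mul, norm_inv, norm_sub_rev]
    apply mul_le_of_le_one_right (norm_nonneg _)
    exact inv_le_one_of_one_le₀ h.le

lemma refl_ne_zero {α : ℂ} (h : α ≠ 0) : refl α ≠ 0 := by
  unfold H388SL.refl
  split_ifs
  · exact h
  · simpa using h

lemma one_sub_refl {α : ℂ} (h : α ≠ 0) :
    1 - ‖refl α‖ ≤ 2 * Real.log (max 1 ‖α‖) - Real.log ‖α‖ := by
  have hpos : 0 < ‖α‖ := norm_pos_iff.mpr h
  unfold H388SL.refl
  by_cases h1 : ‖α‖ ≤ 1
  · rw [if_pos h1, max_eq_left h1, Real.log_one]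
    have := Real.log_le_sub_one_of_pos hpos
    linarith
  · rw [if_neg h1]
    push Not at h1
    rw [max_eq_right h1.le, norm_inv, RCLike.norm_conj]
    have h2 := Real.log_le_sub_one_of_pos (inv_pos.mpr hpos)
    rw [Real.log_inv] at h2
    linarith

/-- contraction factors for the zeros of a complex polynomial -/
theorem self_energy {D : ℕ} (hD : 0 < D) (a : ℂ) (ha : 1 ≤ ‖a‖) (α : Fin D → ℂ)
    (h0 : 1 ≤ ‖a‖ * ∏ j, ‖α j‖) {κ : ℝ} (hκ0 : 0 < κ) (hκ1 : κ ≤ 1) :
    ∃ ε : Fin D → ℝ, (∀ j, 0 < ε j ∧ ε j ≤ 1 / 2) ∧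
      ∑ j, ε j ≤ κ * (1300000000000 *
        (2 + 4 * Real.circleAverage (fun z => Real.posLog ‖a * ∏ j, (z - α j)‖) 0 1 +
        2 * (Real.log ‖a‖ + ∑ j, Real.log (max 1 ‖α j‖)))) ∧
      ∑ i, ∑ j, -Real.log ‖1 - (((1 - ε i) * (1 - ε j) : ℝ) : ℂ) *
        (refl (α i) * starRingEnd ℂ (refl (α j)))‖ ≤
        D * (93600000000000 *
        (2 + 4 * Real.circleAverage (fun z => Real.posLog ‖a * ∏ j, (z - α j)‖) 0 1 +
        2 * (Real.log ‖a‖ + ∑ j, Real.log (max 1 ‖α j‖))) * (1 + Real.log (1 / κ))) := by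
  classical
  set mp := Real.circleAverage (fun z => Real.posLog ‖a * ∏ j, (z - α j)‖) 0 1 with hmp
  set m := Real.log ‖a‖ + ∑ j, Real.log (max 1 ‖α j‖) with hm
  set b : Fin D → ℂ := fun j => refl (α j) with hb
  have hbn : ∀ j, ‖b j‖ ≤ 1 := fun j => norm_refl_le _
  have hcard : 0 < Fintype.card (Fin D) := by rw [Fintype.card_fin]; exact hD
  have hD1 : (1:ℝ) ≤ D := by exact_mod_cast hD
  obtain ⟨H, hH, hH0⟩ := exists_dom hbn hcard
  have hR0 : 0 < 1 - 1 / (16 * ((Fintype.card (Fin D) : ℕ) : ℝ)) := by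
    rw [Fintype.card_fin]
    have : 1 / (16 * (D:ℝ)) ≤ 1 / 16 := by
      apply one_div_le_one_div_of_le (by norm_num); linarith
    linarith
  have hR1 : 1 - 1 / (16 * ((Fintype.card (Fin D) : ℕ) : ℝ)) < 1 := by
    rw [Fintype.card_fin]
    have : 0 < 1 / (16 * (D:ℝ)) := by positivity
    linarith
  have hL : H 0 ≤ 4 * Fintype.card (Fin D) := by
    have h1 := avg_le_card hbn hR0 hR1
    have h2 := Real.log_two_lt_d9
    rw [Fintype.card_fin] at h1 ⊢
    rw [Fintype.card_fin] at hH0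
    nlinarith
  have hαne : ∀ j, α j ≠ 0 := by
    intro j hj
    have : ∏ j, ‖α j‖ = 0 := Finset.prod_eq_zero (Finset.mem_univ j) (by rw [hj, norm_zero])
    rw [this, mul_zero] at h0
    linarith
  have hW1 : H 0 ≤ 1 + 4 * mp := by
    have h1 := avg_le_one hbn hR0 hR1
    have h2 : Real.circleAverage (GP b) 0 1 ≤ mp := by
      apply Real.circleAverage_mono
      · exact ContinuousOn.circleIntegrable' (GP_cont _).continuousOn
      · apply ContinuousOn.circleIntegrable'
        apply Continuous.continuousOn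
        apply Real.continuous_posLog.comp
        fun_prop
      · intro z hz
        rw [mem_sphere_zero_iff_norm, abs_one] at hz
        apply Real.posLog_le_posLog (norm_nonneg _)
        rw [norm_mul, norm_prod, norm_prod]
        calc ∏ j, ‖1 - z * starRingEnd ℂ (b j)‖ ≤ ∏ j, ‖z - α j‖ := by
              apply Finset.prod_le_prod
              · intro j _; exact norm_nonneg _
              · intro j _; exact refl_circle hz
          _ ≤ ‖a‖ * ∏ j, ‖z - α j‖ := by
              apply le_mul_of_one_le_left _ ha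
              exact Finset.prod_nonneg fun j _ => norm_nonneg _
    linarith
  have hW2 : ∑ j, (1 - ‖b j‖) ≤ 2 * m := by
    have h1 : ∑ j, (1 - ‖b j‖) ≤ ∑ j, (2 * Real.log (max 1 ‖α j‖) - Real.log ‖α j‖) :=
      Finset.sum_le_sum fun j _ => one_sub_refl (hαne j)
    have h1' : ∑ j, (2 * Real.log (max 1 ‖α j‖) - Real.log ‖α j‖) =
        2 * ∑ j, Real.log (max 1 ‖α j‖) - ∑ j, Real.log ‖α j‖ := by
      rw [Finset.sum_sub_distrib, ← Finset.mul_sum]
    rw [h1'] at h1
    have h2 : Real.log (‖a‖ * ∏ j, ‖α j‖) = Real.log ‖a‖ + ∑ j, Real.log ‖α j‖ := by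
      rw [Real.log_mul (by positivity)
        (Finset.prod_ne_zero_iff.mpr fun j _ => norm_ne_zero_iff.mpr (hαne j)), Real.log_prod]
      intro j _
      exact norm_ne_zero_iff.mpr (hαne j)
    have h3 := Real.log_nonneg h0
    have h4 := Real.log_nonneg ha
    rw [h2] at h3
    rw [hm]
    linarith
  obtain ⟨ε, hε, hsum, hself⟩ := contract2 hH hcard hL hκ0 hκ1
  have hWW : 1 + H 0 + ∑ j, (1 - ‖b j‖) ≤ 2 + 4 * mp + 2 * m := by linarith
  refine ⟨ε, hε, hsum.trans ?_, hself.trans ?_⟩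
  · apply mul_le_mul_of_nonneg_left _ hκ0.le
    linarith
  · rw [Fintype.card_fin]
    have hlog : 0 ≤ Real.log (1 / κ) := Real.log_nonneg (by rw [le_div_iff₀ hκ0]; linarith)
    apply mul_le_mul_of_nonneg_left _ (Nat.cast_nonneg D)
    apply mul_le_mul_of_nonneg_right _ (by linarith)
    linarith

/-- the energy inequality for a family of polynomials -/
theorem family {ι : Type*} [Fintype ι] [DecidableEq ι] {D : ℕ} (hD : 0 < D) (a : ι → ℂ)
    (ha : ∀ i, 1 ≤ ‖a i‖) (α : ι → Fin D → ℂ) (h0 : ∀ i, 1 ≤ ‖a i‖ * ∏ j, ‖α i j‖)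
    (hne : ∀ i i', i ≠ i' → ∀ j j', α i j ≠ α i' j') {κ : ℝ} (hκ0 : 0 < κ) (hκ1 : κ ≤ 1)
    (W m : ι → ℝ)
    (hm : ∀ i, m i = Real.log ‖a i‖ + ∑ j, Real.log (max 1 ‖α i j‖))
    (hW : ∀ i, W i = 2 + 4 * Real.circleAverage (fun z => Real.posLog ‖a i * ∏ j, (z - α i j)‖) 0 1
      + 2 * m i) :
    ∑ i, ∑ i' ∈ univ.erase i, (D * Real.log ‖a i‖ + D * Real.log ‖a i'‖ +
      ∑ j, ∑ j', Real.log ‖α i j - α i' j'‖) ≤
    ∑ i, (D * (93600000000000 * W i * (1 + Real.log (1 / κ))) +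
      2 * Fintype.card ι * D * (κ * (1300000000000 * W i)) +
      2 * D * (Fintype.card ι - 1) * m i) := by
  classical
  have hex := fun i => self_energy hD (a i) (ha i) (α i) (h0 i) hκ0 hκ1
  choose ε hε hεsum hself using hex
  have hWi : ∀ i, 2 + 4 * Real.circleAverage (fun z => Real.posLog ‖a i * ∏ j, (z - α i j)‖) 0 1 +
        2 * (Real.log ‖a i‖ + ∑ j, Real.log (max 1 ‖α i j‖)) = W i := by
    intro i
    rw [hW i, hm i]
  simp only [hWi] at hεsum hself
  -- positivity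
  have hpsd := psd (univ : Finset (ι × Fin D)) (fun _ => 1)
    (fun p => ((1 - ε p.1 p.2 : ℝ) : ℂ) * refl (α p.1 p.2)) (by
      intro p _
      rw [norm_mul, Complex.norm_real, Real.norm_eq_abs]
      have h1 := hε p.1 p.2
      rw [abs_of_nonneg (by linarith)]
      have h2 := norm_refl_le (α p.1 p.2)
      calc (1 - ε p.1 p.2) * ‖refl (α p.1 p.2)‖ ≤ (1 - ε p.1 p.2) * 1 := by
            apply mul_le_mul_of_nonneg_left h2; linarith
        _ < 1 := by linarith)
  rw [Fintype.sum_prod_type] at hpsd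
  have hterm : ∀ i j i' j', (1:ℝ) * 1 * (-Real.log ‖1 - ((1 - ε i j : ℝ) : ℂ) * refl (α i j) *
      starRingEnd ℂ (((1 - ε i' j' : ℝ) : ℂ) * refl (α i' j'))‖) =
      -Real.log ‖1 - (((1 - ε i j) * (1 - ε i' j') : ℝ) : ℂ) *
        (refl (α i j) * starRingEnd ℂ (refl (α i' j')))‖ := by
    intro i j i' j'
    rw [map_mul, Complex.conj_ofReal, one_mul, one_mul]
    congr 4
    push_cast
    ring
  set T : ι → Fin D → ι → Fin D → ℝ := fun i j i' j' =>
    -Real.log ‖1 - (((1 - ε i j) * (1 - ε i' j') : ℝ) : ℂ) *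
        (refl (α i j) * starRingEnd ℂ (refl (α i' j')))‖ with hT
  have hpsd2 : 0 ≤ ∑ i : ι, ∑ i' : ι, ∑ j : Fin D, ∑ j' : Fin D, T i j i' j' := by
    refine hpsd.trans (le_of_eq ?_)
    refine Finset.sum_congr rfl fun i _ => ?_
    refine Eq.trans ?_ (Finset.sum_comm (f := fun (j : Fin D) (i' : ι) => ∑ j' : Fin D, T i j i' j'))
    refine Finset.sum_congr rfl fun j _ => ?_
    rw [Fintype.sum_prod_type]
    refine Finset.sum_congr rfl fun i' _ => ?_
    refine Finset.sum_congr rfl fun j' _ => ?_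
    exact hterm i j i' j'
  -- the cross terms
  have hcross : ∀ i i', i ≠ i' → ∑ j, ∑ j', T i j i' j' ≤
      -(∑ j, ∑ j', Real.log ‖α i j - α i' j'‖) + D * (m i - Real.log ‖a i‖) +
        D * (m i' - Real.log ‖a i'‖) + D * (∑ j, ε i j) + D * ∑ j, ε i' j := by
    intro i i' hii'
    have h1 : ∀ j j', T i j i' j' ≤ -Real.log ‖α i j - α i' j'‖ + Real.log (max 1 ‖α i j‖) +
        Real.log (max 1 ‖α i' j'‖) + (ε i j + ε i' j') := by
      intro j j'
      have e1 := hε i j
      have e2 := hε i' j'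
      have h2 := pair_log (hne i i' hii' j j') (s := (1 - ε i j) * (1 - ε i' j'))
        (mul_nonneg (by linarith) (by linarith)) (by nlinarith)
      have h3 : 1 - (1 - ε i j) * (1 - ε i' j') ≤ ε i j + ε i' j' := by nlinarith
      exact h2.trans (by linarith)
    calc ∑ j, ∑ j', T i j i' j' ≤ ∑ j, ∑ j', (-Real.log ‖α i j - α i' j'‖ +
          Real.log (max 1 ‖α i j‖) + Real.log (max 1 ‖α i' j'‖) + (ε i j + ε i' j')) :=
          Finset.sum_le_sum fun j _ => Finset.sum_le_sum fun j' _ => h1 j j'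
      _ = _ := by
          simp only [Finset.sum_add_distrib, Finset.sum_neg_distrib, Finset.sum_const,
            Finset.card_univ, Fintype.card_fin, nsmul_eq_mul, ← Finset.mul_sum]
          rw [hm i, hm i']
          ring
  -- summation
  have hsplit : ∑ i, ∑ i', ∑ j, ∑ j', T i j i' j' =
      ∑ i, (∑ j, ∑ j', T i j i j') + ∑ i, ∑ i' ∈ univ.erase i, ∑ j, ∑ j', T i j i' j' := by
    rw [← Finset.sum_add_distrib]
    refine Finset.sum_congr rfl fun i _ => ?_
    rw [← Finset.add_sum_erase _ _ (Finset.mem_univ i)]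
  rw [hsplit] at hpsd2
  have hA : ∑ i, (∑ j, ∑ j', T i j i j') ≤
      ∑ i, (D * (93600000000000 * W i * (1 + Real.log (1 / κ)))) :=
    Finset.sum_le_sum fun i _ => hself i
  have hB : ∑ i, ∑ i' ∈ univ.erase i, ∑ j, ∑ j', T i j i' j' ≤
      ∑ i, ∑ i' ∈ univ.erase i, (-(D * Real.log ‖a i‖ + D * Real.log ‖a i'‖ +
        ∑ j, ∑ j', Real.log ‖α i j - α i' j'‖) + ((D * m i + D * ∑ j, ε i j) +
        (D * m i' + D * ∑ j, ε i' j))) := by
    refine Finset.sum_le_sum fun i _ => Finset.sum_le_sum fun i' hi' => ?_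
    refine (hcross i i' (Finset.ne_of_mem_erase hi').symm).trans (le_of_eq ?_)
    ring
  have hsym : ∀ f : ι → ℝ, ∑ i, ∑ i' ∈ univ.erase i, (f i + f i') =
      ∑ i, 2 * (Fintype.card ι - 1) * f i := by
    intro f
    have h1 : ∀ i, ∑ i' ∈ univ.erase i, (f i + f i') =
        (Fintype.card ι - 1) * f i + (∑ i', f i' - f i) := by
      intro i
      rw [Finset.sum_add_distrib, Finset.sum_const, Finset.card_erase_of_mem (Finset.mem_univ i),
        Finset.card_univ, nsmul_eq_mul, Nat.cast_pred (Fintype.card_pos_iff.mpr ⟨i⟩)]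
      congr 1
      rw [← Finset.add_sum_erase _ f (Finset.mem_univ i)]
      ring
    simp only [h1]
    rw [Finset.sum_add_distrib, Finset.sum_sub_distrib, Finset.sum_const, Finset.card_univ,
      nsmul_eq_mul, ← Finset.mul_sum, ← Finset.mul_sum]
    ring
  have hC : ∑ i, ∑ i' ∈ univ.erase i, ((D * m i + D * ∑ j, ε i j) +
        (D * m i' + D * ∑ j, ε i' j)) ≤
      ∑ i, (2 * Fintype.card ι * D * (κ * (1300000000000 * W i)) +
        2 * D * (Fintype.card ι - 1) * m i) := by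
    rw [hsym (fun i => D * m i + D * ∑ j, ε i j)]
    refine Finset.sum_le_sum fun i _ => ?_
    have h1 : 0 ≤ ∑ j, ε i j := Finset.sum_nonneg fun j _ => (hε i j).1.le
    have h2 := hεsum i
    have hcard1 : (1:ℝ) ≤ Fintype.card ι := by
      exact_mod_cast Fintype.card_pos_iff.mpr ⟨i⟩
    have h3 : 2 * ((Fintype.card ι : ℝ) - 1) * (D * ∑ j, ε i j) ≤
        2 * Fintype.card ι * D * (κ * (1300000000000 * W i)) := by
      calc 2 * ((Fintype.card ι : ℝ) - 1) * (D * ∑ j, ε i j)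
          ≤ 2 * (Fintype.card ι : ℝ) * (D * ∑ j, ε i j) := by
            apply mul_le_mul_of_nonneg_right _ (by positivity)
            linarith
        _ ≤ 2 * (Fintype.card ι : ℝ) * (D * (κ * (1300000000000 * W i))) := by gcongr
        _ = _ := by ring
    linarith
  have hsplit2 : ∑ i, ∑ i' ∈ univ.erase i, (-(D * Real.log ‖a i‖ + D * Real.log ‖a i'‖ +
        ∑ j, ∑ j', Real.log ‖α i j - α i' j'‖) + ((D * m i + D * ∑ j, ε i j) +
        (D * m i' + D * ∑ j, ε i' j))) =
      -(∑ i, ∑ i' ∈ univ.erase i, (D * Real.log ‖a i‖ + D * Real.log ‖a i'‖ +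
        ∑ j, ∑ j', Real.log ‖α i j - α i' j'‖)) +
      ∑ i, ∑ i' ∈ univ.erase i, ((D * m i + D * ∑ j, ε i j) +
        (D * m i' + D * ∑ j, ε i' j)) := by
    simp only [Finset.sum_add_distrib, Finset.sum_neg_distrib]
  rw [hsplit2] at hB
  have hfinal : ∑ i, (D * (93600000000000 * W i * (1 + Real.log (1 / κ))) +
      2 * Fintype.card ι * D * (κ * (1300000000000 * W i)) +
      2 * D * (Fintype.card ι - 1) * m i) =
      ∑ i, (D * (93600000000000 * W i * (1 + Real.log (1 / κ)))) +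
      ∑ i, (2 * Fintype.card ι * D * (κ * (1300000000000 * W i)) +
        2 * D * (Fintype.card ι - 1) * m i) := by
    rw [← Finset.sum_add_distrib]
    refine Finset.sum_congr rfl fun i _ => ?_
    ring
  rw [hfinal]
  linarith

end Pool.Agent.Helper99.TD
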