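import Mathlib
import Pool.Agent.Helper99.TD.En

/-!
# Resultants of twisted polynomials
-/

set_option autoImplicit false

open Finset Polynomial

namespace Pool.Agent.Helper99.TD

section twist

variable {A B : Type*} [CommRing A] [CommRing B] {k : ℕ}

/-- the twisted polynomial `∑ c_j y_j X ^ e_j` -/
noncomputable def TP (c : Fin k → ℤ) (e : Fin k → ℕ) (y : Fin k → A) : A[X] :=
  ∑ j, C ((c j : A) * y j) * X ^ (e j)

lemma TP_map (c : Fin k → ℤ) (e : Fin k → ℕ) (y : Fin k → A) (φ : A →+* B) :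
    (TP c e y).map φ = TP c e (fun j => φ (y j)) := by
  unfold TP
  rw [Polynomial.map_sum]
  refine Finset.sum_congr rfl fun j _ => ?_
  rw [Polynomial.map_mul, Polynomial.map_pow, map_X, map_C, map_mul, map_intCast]

lemma TP_coeff (c : Fin k → ℤ) {e : Fin k → ℕ} (he : Function.Injective e) (y : Fin k → A)
    (i : Fin k) : (TP c e y).coeff (e i) = (c i : A) * y i := by
  unfold TP
  rw [finsetSum_coeff, Finset.sum_eq_single i]
  · rw [coeff_C_mul, coeff_X_pow_self, mul_one]
  · intro j _ hj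
    rw [coeff_C_mul, coeff_X_pow, if_neg, mul_zero]
    intro h
    exact hj (he h.symm)
  · intro h; exact absurd (Finset.mem_univ _) h

lemma TP_natDegree_le (c : Fin k → ℤ) (e : Fin k → ℕ) (y : Fin k → A) {D : ℕ}
    (hD : ∀ j, e j ≤ D) : (TP c e y).natDegree ≤ D := by
  unfold TP
  apply natDegree_sum_le_of_forall_le
  intro j _
  exact (natDegree_C_mul_X_pow_le _ _).trans (hD j)

lemma TP_add_two (c : Fin k → ℤ) (e : Fin k → ℕ) (y z : Fin k → A) :
    TP c e (fun j => y j + 2 * z j) = C 2 * TP c e z + TP c e y * 1 := by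
  unfold TP
  rw [mul_one, Finset.mul_sum, ← Finset.sum_add_distrib]
  refine Finset.sum_congr rfl fun j _ => ?_
  simp only [map_add, map_mul]
  ring

/-- the resultant of two twisted polynomials -/
noncomputable def RS (c : Fin k → ℤ) (e : Fin k → ℕ) (D : ℕ) (y y' : Fin k → A) : A :=
  resultant (TP c e y) (TP c e y') D D

lemma RS_map (c : Fin k → ℤ) (e : Fin k → ℕ) (D : ℕ) (y y' : Fin k → A) (φ : A →+* B) :
    φ (RS c e D y y') = RS c e D (fun j => φ (y j)) (fun j => φ (y' j)) := by
  unfold RS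
  rw [← TP_map, ← TP_map, resultant_map_map]

lemma RS_two (c : Fin k → ℤ) (e : Fin k → ℕ) {D : ℕ} (hD : ∀ j, e j ≤ D) (y z : Fin k → A) :
    RS c e D y (fun j => y j + 2 * z j) = 2 ^ D * RS c e D y z := by
  unfold RS
  rw [TP_add_two, resultant_add_mul_right _ _ _ _ _ (by simp) (TP_natDegree_le c e y hD),
    resultant_C_mul_right]

end twist

section cplx

lemma exists_roots_fun (g : ℂ[X]) {D : ℕ} (hg : g.natDegree = D) :
    ∃ α : Fin D → ℂ, g.roots = Multiset.map α Finset.univ.val := by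
  have hcard : Multiset.card g.roots = D := by
    rw [← hg]
    exact (IsAlgClosed.splits g).natDegree_eq_card_roots.symm
  refine ⟨fun i => g.roots.toList.get (i.cast (by rw [Multiset.length_toList, hcard])), ?_⟩
  have h1 : (g.roots.toList : Multiset ℂ) = g.roots := Multiset.coe_toList _
  conv_lhs => rw [← h1]
  have h2 : Multiset.map (fun i : Fin D => g.roots.toList.get
      (i.cast (by rw [Multiset.length_toList, hcard]))) Finset.univ.val =
      ((List.ofFn (fun i : Fin D => g.roots.toList.get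
      (i.cast (by rw [Multiset.length_toList, hcard]))) : List ℂ) : Multiset ℂ) := by
    rw [List.ofFn_eq_map]
    rfl
  rw [h2]
  congr 1
  apply List.ext_get
  · simp [hcard]
  · intro n h1 h2
    simp

lemma eq_prod (g : ℂ[X]) {D : ℕ} {α : Fin D → ℂ}
    (hα : g.roots = Multiset.map α Finset.univ.val) :
    g = C g.leadingCoeff * ∏ j, (X - C (α j)) := by
  have h1 := (IsAlgClosed.splits g).eq_prod_roots
  rw [hα, Multiset.map_map] at h1
  exact h1

lemma log_resultant {g h : ℂ[X]} {D : ℕ} {α β : Fin D → ℂ} (hg0 : g ≠ 0) (hh0 : h ≠ 0)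
    (hα : g.roots = Multiset.map α Finset.univ.val)
    (hβ : h.roots = Multiset.map β Finset.univ.val) (hres : resultant g h D D ≠ 0) :
    (∀ j j', α j ≠ β j') ∧ Real.log ‖resultant g h D D‖ =
      D * Real.log ‖g.leadingCoeff‖ + D * Real.log ‖h.leadingCoeff‖ +
        ∑ j, ∑ j', Real.log ‖α j - β j'‖ := by
  have hgl : g.leadingCoeff ≠ 0 := leadingCoeff_ne_zero.mpr hg0
  have hhl : h.leadingCoeff ≠ 0 := leadingCoeff_ne_zero.mpr hh0
  have hP : (∏ j, (X - C (α j))).natDegree = D := by
    rw [natDegree_prod_of_monic _ _ fun j _ => monic_X_sub_C _]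
    simp
  have hhd : h.natDegree = D := by
    rw [(IsAlgClosed.splits h).natDegree_eq_card_roots, hβ]
    simp
  have hev : ∀ x : ℂ, eval x h = h.leadingCoeff * ∏ j', (x - β j') := by
    intro x
    conv_lhs => rw [eq_prod h hβ]
    rw [eval_mul, eval_C, eval_prod]
    simp
  have hR : resultant g h D D = g.leadingCoeff ^ D * ∏ j, (h.leadingCoeff * ∏ j', (α j - β j')) := by
    conv_lhs => rw [eq_prod g hα]
    rw [resultant_C_mul_left]
    congr 1
    have h1 := resultant_prod_left (Finset.univ : Finset (Fin D)) (fun j => X - C (α j)) h D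
      (by simp) hhd.le
    rw [hP] at h1
    rw [h1]
    refine Finset.prod_congr rfl fun j _ => ?_
    rw [natDegree_X_sub_C, resultant_X_sub_C_left _ _ _ hhd.le, hev]
  rw [hR] at hres ⊢
  have hne1 : ∀ j, h.leadingCoeff * ∏ j', (α j - β j') ≠ 0 := by
    intro j
    exact Finset.prod_ne_zero_iff.mp (right_ne_zero_of_mul hres) j (Finset.mem_univ _)
  have hne2 : ∀ j j', α j - β j' ≠ 0 := by
    intro j j'
    exact Finset.prod_ne_zero_iff.mp (right_ne_zero_of_mul (hne1 j)) j' (Finset.mem_univ _)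
  refine ⟨fun j j' => sub_ne_zero.mp (hne2 j j'), ?_⟩
  rw [norm_mul, norm_pow, norm_prod, Real.log_mul (by positivity)
    (Finset.prod_ne_zero_iff.mpr fun j _ => norm_ne_zero_iff.mpr (hne1 j)), Real.log_pow,
    Real.log_prod (fun j _ => norm_ne_zero_iff.mpr (hne1 j)), add_assoc]
  congr 1
  have h2 : ∀ j, Real.log ‖h.leadingCoeff * ∏ j', (α j - β j')‖ =
      Real.log ‖h.leadingCoeff‖ + ∑ j', Real.log ‖α j - β j'‖ := by
    intro j
    rw [norm_mul, norm_prod, Real.log_mul (norm_ne_zero_iff.mpr hhl)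
      (Finset.prod_ne_zero_iff.mpr fun j' _ => norm_ne_zero_iff.mpr (hne2 j j')),
      Real.log_prod (fun j' _ => norm_ne_zero_iff.mpr (hne2 j j'))]
  rw [Finset.sum_congr rfl fun j _ => h2 j, Finset.sum_add_distrib, Finset.sum_const,
    Finset.card_univ, Fintype.card_fin, nsmul_eq_mul]

/-- the energy inequality for a family of polynomials with nonzero resultants -/
theorem family_poly {ι : Type*} [Fintype ι] [DecidableEq ι] {D : ℕ} (hD : 0 < D) (g : ι → ℂ[X])
    (hdeg : ∀ i, (g i).natDegree = D) (hlc : ∀ i, 1 ≤ ‖(g i).leadingCoeff‖)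
    (h0 : ∀ i, 1 ≤ ‖(g i).coeff 0‖)
    (hres : ∀ i i', i ≠ i' → resultant (g i) (g i') D D ≠ 0) {κ : ℝ} (hκ0 : 0 < κ)
    (hκ1 : κ ≤ 1) (W : ι → ℝ)
    (hW : ∀ i, W i = 2 + 4 * Real.circleAverage (fun z => Real.posLog ‖eval z (g i)‖) 0 1
      + 2 * (g i).logMahlerMeasure) :
    ∑ i, ∑ i' ∈ univ.erase i, Real.log ‖resultant (g i) (g i') D D‖ ≤
    ∑ i, (D * (93600000000000 * W i * (1 + Real.log (1 / κ))) +
      2 * Fintype.card ι * D * (κ * (1300000000000 * W i)) +
      2 * D * (Fintype.card ι - 1) * (g i).logMahlerMeasure) := by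
  classical
  choose α hα using fun i => exists_roots_fun (g i) (hdeg i)
  have hg0 : ∀ i, g i ≠ 0 := by
    intro i h
    have := h0 i
    rw [h, coeff_zero, norm_zero] at this
    linarith
  have heval : ∀ i z, eval z (g i) = (g i).leadingCoeff * ∏ j, (z - α i j) := by
    intro i z
    conv_lhs => rw [eq_prod (g i) (hα i)]
    rw [eval_mul, eval_C, eval_prod]
    simp
  have hcoef : ∀ i, 1 ≤ ‖(g i).leadingCoeff‖ * ∏ j, ‖α i j‖ := by
    intro i
    have h1 := heval i 0
    rw [← coeff_zero_eq_eval_zero] at h1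
    have h2 := h0 i
    rw [h1, norm_mul, norm_prod] at h2
    simpa using h2
  have hm : ∀ i, (g i).logMahlerMeasure =
      Real.log ‖(g i).leadingCoeff‖ + ∑ j, Real.log (max 1 ‖α i j‖) := by
    intro i
    rw [logMahlerMeasure_eq_log_leadingCoeff_add_sum_log_roots, hα i, Multiset.map_map]
    congr 1
    change ∑ j, Real.posLog ‖α i j‖ = _
    refine Finset.sum_congr rfl fun j _ => ?_
    rw [Real.posLog_eq_log_max_one (norm_nonneg _)]
  have hLR : ∀ i i', i ≠ i' → (∀ j j', α i j ≠ α i' j') ∧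
      Real.log ‖resultant (g i) (g i') D D‖ = D * Real.log ‖(g i).leadingCoeff‖ +
      D * Real.log ‖(g i').leadingCoeff‖ + ∑ j, ∑ j', Real.log ‖α i j - α i' j'‖ :=
    fun i i' hii' => log_resultant (hg0 i) (hg0 i') (hα i) (hα i') (hres i i' hii')
  have hmain := family hD (fun i => (g i).leadingCoeff) hlc α hcoef
    (fun i i' hii' => (hLR i i' hii').1) hκ0 hκ1 W (fun i => (g i).logMahlerMeasure) hm (by
      intro i
      rw [hW i]
      simp only [heval])
  refine le_trans (le_of_eq ?_) hmain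
  refine Finset.sum_congr rfl fun i _ => Finset.sum_congr rfl fun i' hi' => ?_
  exact (hLR i i' (Finset.ne_of_mem_erase hi').symm).2

end cplx

end Pool.Agent.Helper99.TD
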