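import Mathlib
import Pool.Agent.Helper99.TD.Rs

/-!
# The averaged energy inequality
-/

set_option autoImplicit false

open Finset Polynomial MeasureTheory

namespace Pool.Agent.Helper99.TD

/-- the point of the unit circle with argument `2 π t` -/
noncomputable def ep (t : ℝ) : ℂ := Complex.exp (2 * Real.pi * Complex.I * t)

lemma ep_norm (t : ℝ) : ‖ep t‖ = 1 := by
  unfold ep
  have : (2 * Real.pi * Complex.I * t : ℂ) = ((2 * Real.pi * t : ℝ) : ℂ) * Complex.I := by
    push_cast; ring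
  rw [this, Complex.norm_exp_ofReal_mul_I]

lemma ep_cont : Continuous ep := by
  unfold ep
  fun_prop

lemma ep_pow (t : ℝ) (n : ℕ) : ep t ^ n = Complex.exp (2 * Real.pi * Complex.I * (n * t : ℝ)) := by
  unfold ep
  rw [← Complex.exp_nat_mul]
  congr 1
  push_cast
  ring

lemma circle_int (f : ℂ → ℝ) : Real.circleAverage f 0 1 = ∫ t in (0:ℝ)..1, f (ep t) := by
  rw [Real.circleAverage_def]
  have h := intervalIntegral.integral_comp_mul_left (a := (0 : ℝ)) (b := 1)
    (f := fun θ => f (circleMap 0 1 θ)) (c := 2 * Real.pi) (by positivity)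
  have h2 : ∀ t : ℝ, f (circleMap 0 1 (2 * Real.pi * t)) = f (ep t) := by
    intro t
    congr 1
    unfold ep circleMap
    push_cast
    rw [zero_add, one_mul]
    congr 1
    ring
  simp only [h2] at h
  rw [h, mul_zero, mul_one]

lemma fiber_countable (z : ℂ) : {t : ℝ | ep t = z}.Countable := by
  rcases Set.eq_empty_or_nonempty {t : ℝ | ep t = z} with h | ⟨t0, ht0⟩
  · rw [h]; exact Set.countable_empty
  · have hsub : {t : ℝ | ep t = z} ⊆ Set.range (fun n : ℤ => t0 + n) := by
      intro t ht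
      have h1 : ep t = ep t0 := by
        rw [show ep t = z from ht, show ep t0 = z from ht0]
      unfold ep at h1
      rw [Complex.exp_eq_exp_iff_exists_int] at h1
      obtain ⟨n, hn⟩ := h1
      refine ⟨n, ?_⟩
      have h2 : (2 * Real.pi * Complex.I) * (t : ℂ) = (2 * Real.pi * Complex.I) * ((t0 : ℂ) + n) := by
        rw [hn]; ring
      have h3 := mul_left_cancel₀ Complex.two_pi_I_ne_zero h2
      have h4 : t = t0 + n := by exact_mod_cast h3
      exact h4.symm
    exact (Set.countable_range _).mono hsub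

lemma ae_eval_ne {g : ℂ[X]} (hg : g ≠ 0) : ∀ᵐ t : ℝ, eval (ep t) g ≠ 0 := by
  have hc : {t : ℝ | eval (ep t) g = 0}.Countable := by
    have h1 : {t : ℝ | eval (ep t) g = 0} = ⋃ z ∈ g.roots.toFinset, {t : ℝ | ep t = z} := by
      ext t
      simp [hg]
    rw [h1]
    exact Set.Countable.biUnion (Finset.countable_toSet _) fun z _ => fiber_countable z
  exact hc.ae_notMem volume

lemma log_int (g : ℂ[X]) : IntervalIntegrable (fun t => Real.log ‖eval (ep t) g‖) volume 0 1 := by
  have h := Polynomial.intervalIntegrable_mahlerMeasure g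
  have h2 := h.comp_mul_left (c := 2 * Real.pi)
  rw [zero_div, div_self (by positivity)] at h2
  refine h2.congr fun t _ => ?_
  have : circleMap 0 1 (2 * Real.pi * t) = ep t := by
    unfold ep circleMap
    push_cast
    rw [zero_add, one_mul]
    congr 1
    ring
  simp only [this]

/-- upper bound of a logarithmic Mahler measure -/
lemma lmm_le {g : ℂ[X]} (hg : g ≠ 0) {φ : ℝ → ℝ} (hφ : Continuous φ)
    (h : ∀ t, eval (ep t) g ≠ 0 → Real.log ‖eval (ep t) g‖ ≤ φ t) :
    g.logMahlerMeasure ≤ ∫ t in (0:ℝ)..1, φ t := by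
  rw [logMahlerMeasure_def, circle_int]
  apply intervalIntegral.integral_mono_ae zero_le_one (log_int g) (hφ.intervalIntegrable _ _)
  filter_upwards [ae_eval_ne hg] with t ht
  exact h t ht

lemma lmm_int_nonneg {R : ℤ[X]} (hR : R ≠ 0) :
    0 ≤ (R.map (Int.castRingHom ℂ)).logMahlerMeasure := by
  rw [logMahlerMeasure_eq_log_MahlerMeasure]
  apply Real.log_nonneg
  apply one_le_mahlerMeasure_of_one_le_norm_leadingCoeff
  rw [leadingCoeff_map_of_injective (RingHom.injective_int _), eq_intCast, Complex.norm_intCast]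
  have h1 : R.leadingCoeff ≠ 0 := leadingCoeff_ne_zero.mpr hR
  have h2 : (1:ℤ) ≤ |R.leadingCoeff| := Int.one_le_abs h1
  exact_mod_cast h2

lemma lmm_two_pow {R R' : ℤ[X]} {D : ℕ} (hR : R ≠ 0) (h : R = 2 ^ D * R') :
    D * Real.log 2 ≤ (R.map (Int.castRingHom ℂ)).logMahlerMeasure := by
  have hR' : R' ≠ 0 := by
    rintro rfl
    rw [mul_zero] at h
    exact hR h
  have h1 : R.map (Int.castRingHom ℂ) = C ((2:ℂ) ^ D) * R'.map (Int.castRingHom ℂ) := by
    rw [h, Polynomial.map_mul, Polynomial.map_pow, Polynomial.map_ofNat, map_pow, map_ofNat]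
  have h2 : R'.map (Int.castRingHom ℂ) ≠ 0 := by
    rw [Ne, Polynomial.map_eq_zero_iff (RingHom.injective_int _)]
    exact hR'
  rw [h1, logMahlerMeasure_C_mul (pow_ne_zero _ two_ne_zero) h2, norm_pow, Complex.norm_ofNat, Real.log_pow]
  have := lmm_int_nonneg hR'
  linarith

lemma ii_sum {σ : Type*} (s : Finset σ) {f : σ → ℝ → ℝ}
    (h : ∀ i ∈ s, IntervalIntegrable (f i) volume 0 1) :
    IntervalIntegrable (fun t => ∑ i ∈ s, f i t) volume 0 1 := by
  have h1 := IntervalIntegrable.sum s h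
  have e : (∑ i ∈ s, f i) = fun t => ∑ i ∈ s, f i t := by
    ext t
    rw [Finset.sum_apply]
  rwa [e] at h1

variable {ι : Type*} [Fintype ι] [DecidableEq ι] {k : ℕ}

/-- the twisted values -/
noncomputable def yv {A : Type*} [CommRing A] (w e' : Fin k → ℕ) (x : A) : Fin k → A :=
  fun j => (-1) ^ (w j) * x ^ (e' j)

lemma yv_map {A B : Type*} [CommRing A] [CommRing B] (φ : A →+* B) (w e' : Fin k → ℕ) (x : A) :
    (fun j => φ (yv w e' x j)) = yv w e' (φ x) := by
  funext j
  simp [yv]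

lemma neg_one_pow_diff {A : Type*} [CommRing A] (a b : ℕ) :
    ∃ s : ℤ, ((-1:A)) ^ b = (-1) ^ a + 2 * (s : A) := by
  rcases neg_one_pow_eq_or A a with h | h <;> rcases neg_one_pow_eq_or A b with h' | h'
  · exact ⟨0, by rw [h, h']; simp⟩
  · exact ⟨-1, by rw [h, h']; push_cast; ring⟩
  · exact ⟨1, by rw [h, h']; push_cast; ring⟩
  · exact ⟨0, by rw [h, h']; simp⟩

lemma RS_dvd (c : Fin k → ℤ) (e : Fin k → ℕ) {D : ℕ} (hD : ∀ j, e j ≤ D) (w w' e' : Fin k → ℕ) :
    ∃ R' : ℤ[X], RS c e D (yv w e' (X : ℤ[X])) (yv w' e' X) = 2 ^ D * R' := by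
  choose s hs using fun j => neg_one_pow_diff (A := ℤ[X]) (w j) (w' j)
  refine ⟨RS c e D (yv w e' (X : ℤ[X])) (fun j => (s j : ℤ[X]) * X ^ (e' j)), ?_⟩
  rw [← RS_two c e hD]
  congr 1
  funext j
  unfold yv
  rw [hs j]
  ring

/-- the averaged energy inequality -/
theorem averaged (c : Fin k → ℤ) {e : Fin k → ℕ} (he : Function.Injective e) {D : ℕ}
    (hDpos : 0 < D) (hD : ∀ j, e j ≤ D) (jt j0 : Fin k) (hjt : e jt = D) (hj0 : e j0 = 0)
    (hct : c jt ≠ 0) (hc0 : c j0 ≠ 0) (w : ι → Fin k → ℕ) (e' : Fin k → ℕ)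
    (hR : ∀ i i', i ≠ i' → RS c e D (yv (w i) e' (X : ℤ[X])) (yv (w i') e' X) ≠ 0)
    {κ : ℝ} (hκ0 : 0 < κ) (hκ1 : κ ≤ 1) (U V : ι → ℝ → ℝ) (hUc : ∀ i, Continuous (U i))
    (hVc : ∀ i, Continuous (V i))
    (hU : ∀ i τ, (TP c e (yv (w i) e' (ep τ))).logMahlerMeasure ≤ U i τ)
    (hV : ∀ i τ, Real.circleAverage
      (fun z => Real.posLog ‖eval z (TP c e (yv (w i) e' (ep τ)))‖) 0 1 ≤ V i τ) :
    (Fintype.card ι * (Fintype.card ι - 1) : ℝ) * (D * Real.log 2) ≤
    ∑ i, (D * (93600000000000 * (2 + 4 * (∫ τ in (0:ℝ)..1, V i τ) + 2 * ∫ τ in (0:ℝ)..1, U i τ) *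
        (1 + Real.log (1 / κ))) +
      2 * Fintype.card ι * D * (κ * (1300000000000 *
        (2 + 4 * (∫ τ in (0:ℝ)..1, V i τ) + 2 * ∫ τ in (0:ℝ)..1, U i τ))) +
      2 * D * (Fintype.card ι - 1) * ∫ τ in (0:ℝ)..1, U i τ) := by
  classical
  set R : ι → ι → ℤ[X] := fun i i' => RS c e D (yv (w i) e' (X : ℤ[X])) (yv (w i') e' X) with hRdef
  have hlog : 0 ≤ Real.log (1 / κ) := Real.log_nonneg (by rw [le_div_iff₀ hκ0]; linarith)
  -- lower bound
  have hlow : ∀ i i', i ≠ i' → D * Real.log 2 ≤ ∫ τ in (0:ℝ)..1,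
      Real.log ‖eval (ep τ) ((R i i').map (Int.castRingHom ℂ))‖ := by
    intro i i' hii'
    obtain ⟨R', hR'⟩ := RS_dvd c e hD (w i) (w i') e'
    have h1 := lmm_two_pow (hR i i' hii') hR'
    rw [logMahlerMeasure_def, circle_int] at h1
    exact h1
  have hlow2 : (Fintype.card ι * (Fintype.card ι - 1) : ℝ) * (D * Real.log 2) ≤
      ∑ i, ∑ i' ∈ univ.erase i, ∫ τ in (0:ℝ)..1,
      Real.log ‖eval (ep τ) ((R i i').map (Int.castRingHom ℂ))‖ := by
    calc (Fintype.card ι * (Fintype.card ι - 1) : ℝ) * (D * Real.log 2) =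
        ∑ i : ι, ∑ i' ∈ univ.erase i, D * Real.log 2 := by
          have h1 : ∀ i : ι, ∑ i' ∈ univ.erase i, D * Real.log 2 =
              ((Fintype.card ι : ℝ) - 1) * (D * Real.log 2) := by
            intro i
            rw [Finset.sum_const, Finset.card_erase_of_mem (Finset.mem_univ i),
              Finset.card_univ, nsmul_eq_mul, Nat.cast_pred (Fintype.card_pos_iff.mpr ⟨i⟩)]
          rw [Finset.sum_congr rfl fun i _ => h1 i, Finset.sum_const, Finset.card_univ,
            nsmul_eq_mul]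
          ring
      _ ≤ _ := Finset.sum_le_sum fun i _ => Finset.sum_le_sum fun i' hi' =>
          hlow i i' (Finset.ne_of_mem_erase hi').symm
  refine hlow2.trans ?_
  -- exchange
  have hswap : ∑ i, ∑ i' ∈ univ.erase i, ∫ τ in (0:ℝ)..1,
      Real.log ‖eval (ep τ) ((R i i').map (Int.castRingHom ℂ))‖ =
      ∫ τ in (0:ℝ)..1, ∑ i, ∑ i' ∈ univ.erase i,
      Real.log ‖eval (ep τ) ((R i i').map (Int.castRingHom ℂ))‖ := by
    rw [intervalIntegral.integral_finsetSum]
    · refine Finset.sum_congr rfl fun i _ => ?_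
      rw [intervalIntegral.integral_finsetSum]
      intro i' _
      exact log_int _
    · intro i _
      apply ii_sum
      intro i' _
      exact log_int _
  rw [hswap]
  set G : ℝ → ℝ := fun τ => ∑ i, (D * (93600000000000 * (2 + 4 * V i τ + 2 * U i τ) *
        (1 + Real.log (1 / κ))) +
      2 * Fintype.card ι * D * (κ * (1300000000000 * (2 + 4 * V i τ + 2 * U i τ))) +
      2 * D * (Fintype.card ι - 1) * U i τ) with hG
  have hGint : ∫ τ in (0:ℝ)..1, G τ = ∑ i, (D * (93600000000000 *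
        (2 + 4 * (∫ τ in (0:ℝ)..1, V i τ) + 2 * ∫ τ in (0:ℝ)..1, U i τ) *
        (1 + Real.log (1 / κ))) +
      2 * Fintype.card ι * D * (κ * (1300000000000 *
        (2 + 4 * (∫ τ in (0:ℝ)..1, V i τ) + 2 * ∫ τ in (0:ℝ)..1, U i τ))) +
      2 * D * (Fintype.card ι - 1) * ∫ τ in (0:ℝ)..1, U i τ) := by
    rw [hG, intervalIntegral.integral_finsetSum]
    · refine Finset.sum_congr rfl fun i _ => ?_
      have hUi := (hUc i).intervalIntegrable (μ := volume) 0 1
      have hVi := (hVc i).intervalIntegrable (μ := volume) 0 1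
      have e1 : ∀ τ, (D * (93600000000000 * (2 + 4 * V i τ + 2 * U i τ) *
        (1 + Real.log (1 / κ))) +
      2 * Fintype.card ι * D * (κ * (1300000000000 * (2 + 4 * V i τ + 2 * U i τ))) +
      2 * D * (Fintype.card ι - 1) * U i τ : ℝ) =
        (2 * (D * 93600000000000 * (1 + Real.log (1 / κ)) +
          2 * Fintype.card ι * D * κ * 1300000000000)) +
        ((4 * (D * 93600000000000 * (1 + Real.log (1 / κ)) +
          2 * Fintype.card ι * D * κ * 1300000000000)) * V i τ +
        (2 * (D * 93600000000000 * (1 + Real.log (1 / κ)) +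
          2 * Fintype.card ι * D * κ * 1300000000000) +
          2 * D * (Fintype.card ι - 1)) * U i τ) := by
        intro τ; ring
      simp only [e1]
      rw [intervalIntegral.integral_add intervalIntegrable_const
        ((hVi.const_mul _).add (hUi.const_mul _)), intervalIntegral.integral_add
        (hVi.const_mul _) (hUi.const_mul _), intervalIntegral.integral_const,
        intervalIntegral.integral_const_mul, intervalIntegral.integral_const_mul]
      simp only [sub_zero, one_smul]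
      ring
    · intro i _
      apply Continuous.intervalIntegrable
      have := hUc i
      have := hVc i
      fun_prop
  rw [← hGint]
  apply intervalIntegral.integral_mono_ae zero_le_one
  · apply ii_sum
    intro i _
    apply ii_sum
    intro i' _
    exact log_int _
  · apply Continuous.intervalIntegrable
    rw [hG]
    apply continuous_finsetSum
    intro i _
    have := hUc i
    have := hVc i
    fun_prop
  -- pointwise inequality
  have hae : ∀ᵐ τ : ℝ, ∀ i i', i ≠ i' → eval (ep τ) ((R i i').map (Int.castRingHom ℂ)) ≠ 0 := by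
    rw [ae_all_iff]
    intro i
    rw [ae_all_iff]
    intro i'
    rw [ae_all_iff]
    intro hii'
    apply ae_eval_ne
    rw [Ne, Polynomial.map_eq_zero_iff (RingHom.injective_int _)]
    exact hR i i' hii'
  filter_upwards [hae] with τ hτ
  have hev : ∀ i i', eval (ep τ) ((R i i').map (Int.castRingHom ℂ)) =
      resultant (TP c e (yv (w i) e' (ep τ))) (TP c e (yv (w i') e' (ep τ))) D D := by
    intro i i'
    rw [hRdef, eval_map]
    have h1 := RS_map c e D (yv (w i) e' (X : ℤ[X])) (yv (w i') e' X)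
      (eval₂RingHom (Int.castRingHom ℂ) (ep τ))
    rw [yv_map, yv_map] at h1
    simp only [coe_eval₂RingHom, eval₂_X] at h1
    exact h1
  set g : ι → ℂ[X] := fun i => TP c e (yv (w i) e' (ep τ)) with hg
  have hyn : ∀ i j, ‖yv (w i) e' (ep τ) j‖ = 1 := by
    intro i j
    unfold yv
    rw [norm_mul, norm_pow, norm_pow, ep_norm]
    simp
  have hcoef : ∀ i j, (g i).coeff (e j) = (c j : ℂ) * yv (w i) e' (ep τ) j := by
    intro i j
    exact TP_coeff c he _ j
  have hcoefn : ∀ i j, ‖(g i).coeff (e j)‖ = |(c j : ℝ)| := by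
    intro i j
    rw [hcoef, norm_mul, hyn, mul_one, Complex.norm_intCast]
  have hone : ∀ j, c j ≠ 0 → (1:ℝ) ≤ |(c j : ℝ)| := by
    intro j hj
    have : (1:ℤ) ≤ |c j| := Int.one_le_abs hj
    exact_mod_cast this
  have hdeg : ∀ i, (g i).natDegree = D := by
    intro i
    apply le_antisymm (TP_natDegree_le c e _ hD)
    apply le_natDegree_of_ne_zero
    rw [← hjt]
    intro h
    have := hcoefn i jt
    rw [h, norm_zero] at this
    have h2 := hone jt hct
    linarith
  have hlc : ∀ i, 1 ≤ ‖(g i).leadingCoeff‖ := by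
    intro i
    rw [leadingCoeff, hdeg i, ← hjt, hcoefn]
    exact hone jt hct
  have h0 : ∀ i, 1 ≤ ‖(g i).coeff 0‖ := by
    intro i
    rw [← hj0, hcoefn]
    exact hone j0 hc0
  have hmain := family_poly hDpos g hdeg hlc h0 (fun i i' hii' => by
    rw [← hev i i']
    exact hτ i i' hii') hκ0 hκ1 _ (fun i => rfl)
  have hLHS : ∑ i, ∑ i' ∈ univ.erase i,
      Real.log ‖eval (ep τ) ((R i i').map (Int.castRingHom ℂ))‖ =
      ∑ i, ∑ i' ∈ univ.erase i, Real.log ‖resultant (g i) (g i') D D‖ := by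
    refine Finset.sum_congr rfl fun i _ => Finset.sum_congr rfl fun i' _ => ?_
    rw [hev]
  rw [hLHS]
  refine hmain.trans ?_
  rw [hG]
  refine Finset.sum_le_sum fun i _ => ?_
  have hcard1 : (1:ℝ) ≤ Fintype.card ι := by
    exact_mod_cast Fintype.card_pos_iff.mpr ⟨i⟩
  have hUi := hU i τ
  have hVi := hV i τ
  have hWi : 2 + 4 * Real.circleAverage (fun z => Real.posLog ‖eval z (g i)‖) 0 1
      + 2 * (g i).logMahlerMeasure ≤ 2 + 4 * V i τ + 2 * U i τ := by
    have h1 : (g i).logMahlerMeasure ≤ U i τ := hUi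
    have h2 : Real.circleAverage (fun z => Real.posLog ‖eval z (g i)‖) 0 1 ≤ V i τ := hVi
    linarith
  have hD0 : (0:ℝ) ≤ D := Nat.cast_nonneg D
  apply add_le_add
  · apply add_le_add
    · apply mul_le_mul_of_nonneg_left _ hD0
      apply mul_le_mul_of_nonneg_right _ (by linarith)
      linarith
    · apply mul_le_mul_of_nonneg_left _ (by positivity)
      apply mul_le_mul_of_nonneg_left _ hκ0.le
      linarith
  · apply mul_le_mul_of_nonneg_left hUi
    apply mul_nonneg (by positivity)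
    linarith

end Pool.Agent.Helper99.TD
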