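import Mathlib
import Pool.Agent.Helper99.MK.Ad

/-!
# Many sign patterns from the integer vectors of a rational subspace
-/

set_option autoImplicit false

open Finset Module Pool.Agent.Helper99.MK

namespace Pool.Agent.Helper99.TD

variable {k : ℕ}

/-- the integer vectors in the span -/
def LL (l : List (Fin k → ℤ)) : Submodule ℤ (Fin k → ℤ) where
  carrier := {w | ic w ∈ spn l}
  add_mem' := by
    intro a b ha hb
    rw [Set.mem_ofPred_eq, ic_add]
    exact Submodule.add_mem _ ha hb
  zero_mem' := by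
    have : ic (0 : Fin k → ℤ) = 0 := by ext j; simp [ic]
    rw [Set.mem_ofPred_eq, this]
    exact Submodule.zero_mem _
  smul_mem' := by
    intro t b hb
    rw [Set.mem_ofPred_eq, ic_smul]
    exact Submodule.smul_mem _ _ hb

lemma mem_LL {l : List (Fin k → ℤ)} {w : Fin k → ℤ} : w ∈ LL l ↔ ic w ∈ spn l := Iff.rfl

lemma half_mem {l : List (Fin k → ℤ)} {u v : Fin k → ℤ} (hu : u ∈ LL l) (h : ∀ j, u j = 2 * v j) :
    v ∈ LL l := by
  rw [mem_LL] at hu ⊢
  have : ic v = (1 / 2 : ℝ) • ic u := by
    ext j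
    simp only [ic, Pi.smul_apply, smul_eq_mul, h j]
    push_cast
    ring
  rw [this]
  exact Submodule.smul_mem _ _ hu

lemma finrank_le_LL (l : List (Fin k → ℤ)) : finrank ℝ (spn l) ≤ finrank ℤ (LL l) := by
  obtain ⟨f, hf1, hf2, hf3⟩ := Submodule.exists_fun_fin_finrank_span_eq ℝ
    {v : Fin k → ℝ | ∃ w ∈ l, v = ic w}
  choose w hw1 hw2 using hf1
  have hfw : f = fun i => ic (w i) := by ext i; rw [hw2 i]
  set g : Fin (finrank ℝ (spn l)) → LL l := fun i => ⟨w i, mem_spn (hw1 i)⟩ with hg
  have hgi : LinearIndependent ℤ g := by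
    have h1 : LinearIndependent ℤ f := LinearIndependent.restrict_scalars (R := ℤ) (K := ℝ)
      (by
        intro a b hab
        simpa using hab) hf3
    let φ : (LL l) →ₗ[ℤ] (Fin k → ℝ) :=
      { toFun := fun b => ic (b : Fin k → ℤ)
        map_add' := by intro a b; exact ic_add _ _
        map_smul' := by
          intro t b
          ext j
          simp [ic] }
    have h2 : f = φ ∘ g := by
      rw [hfw]
      rfl
    rw [h2] at h1
    exact LinearIndependent.of_comp φ h1
  have h3 := hgi.fintype_card_le_finrank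
  rwa [Fintype.card_fin] at h3

lemma neg_one_pow_parity (a b : ℕ) (h : (-1:ℤ) ^ a = (-1) ^ b) : Even (a + b) := by
  rcases Nat.even_or_odd a with ha | ha <;> rcases Nat.even_or_odd b with hb | hb
  · exact ha.add hb
  · rw [ha.neg_one_pow, hb.neg_one_pow] at h
    norm_num at h
  · rw [ha.neg_one_pow, hb.neg_one_pow] at h
    norm_num at h
  · exact ha.add_odd hb

/-- natural vectors with the same parities -/
lemma to_nat_vec (l : List (Fin k → ℤ)) (h1 : one1 ∈ LL l) (v : Fin k → ℤ) (hv : v ∈ LL l) :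
    ∃ w : Fin k → ℕ, (fun j => (w j : ℤ)) ∈ LL l ∧ ∃ M : ℤ, ∀ j, (w j : ℤ) = v j + 2 * M := by
  have hnn : ∀ j, 0 ≤ v j + 2 * ∑ i, |v i| := by
    intro j
    have h2 : |v j| ≤ ∑ i, |v i| :=
      Finset.single_le_sum (f := fun i => |v i|) (fun i _ => abs_nonneg _) (Finset.mem_univ j)
    have h3 := neg_abs_le (v j)
    have h4 := abs_nonneg (v j)
    linarith
  have he : ∀ j, (((v j + 2 * ∑ i, |v i|).toNat : ℕ) : ℤ) = v j + 2 * ∑ i, |v i| :=
    fun j => Int.toNat_of_nonneg (hnn j)
  refine ⟨fun j => (v j + 2 * ∑ i, |v i|).toNat, ?_, ∑ i, |v i|, he⟩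
  have : (fun j => (((v j + 2 * ∑ i, |v i|).toNat : ℕ) : ℤ)) = v + (2 * ∑ i, |v i|) • one1 := by
    funext j
    rw [he j]
    simp [one1]
  rw [this]
  exact Submodule.add_mem _ hv (Submodule.smul_mem _ _ h1)

/-- many sign patterns -/
theorem exists_family (hk : 0 < k) (l : List (Fin k → ℤ)) (h1 : one1 ∈ LL l) :
    ∃ (n : ℕ) (w : Fin n → Fin k → ℕ), 2 ^ (finrank ℝ (spn l) - 1) ≤ n ∧
      (∀ i, (fun j => (w i j : ℤ)) ∈ LL l) ∧
      ∀ i i', i ≠ i' → ∃ j j', (-1:ℤ) ^ (w i j + w i' j) ≠ (-1) ^ (w i j' + w i' j') := by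
  classical
  set n' := finrank ℤ (LL l) with hn'
  let β : Basis (Fin n') ℤ (LL l) := Module.finBasis ℤ (LL l)
  set o : LL l := ⟨one1, h1⟩ with ho
  -- an odd coordinate of the vector of ones
  obtain ⟨i0, hi0⟩ : ∃ i0, Odd (β.repr o i0) := by
    by_contra hcon
    push Not at hcon
    have heven : ∀ i, Even (β.repr o i) := fun i => Int.not_odd_iff_even.mp (hcon i)
    choose m hm using heven
    have h2 : o = (2:ℤ) • ∑ i, m i • β i := by
      conv_lhs => rw [← β.sum_repr o]
      rw [Finset.smul_sum]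
      refine Finset.sum_congr rfl fun i _ => ?_
      rw [smul_smul, hm i, two_mul]
    have h3 := congrArg (fun x : LL l => (x : Fin k → ℤ) ⟨0, hk⟩) h2
    simp only [ho, one1, Submodule.coe_smul, Pi.smul_apply, smul_eq_mul] at h3
    omega
  -- the index set
  set I : Finset (Finset (Fin n')) := (Finset.univ.erase i0).powerset with hI
  have hIcard : I.card = 2 ^ (n' - 1) := by
    rw [hI, Finset.card_powerset, Finset.card_erase_of_mem (Finset.mem_univ _), Finset.card_univ,
      Fintype.card_fin]
  set v : Finset (Fin n') → LL l := fun A => ∑ i ∈ A, β i with hv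
  choose w hw1 M hw2 using fun A : Finset (Fin n') => to_nat_vec l h1 (v A : Fin k → ℤ) (v A).2
  have hImem : ∀ A ∈ I, i0 ∉ A := by
    intro A hA h
    rw [hI, Finset.mem_powerset] at hA
    exact absurd (hA h) (Finset.notMem_erase _ _)
  let eI : Fin I.card ≃ I := I.equivFin.symm
  refine ⟨I.card, fun a => w (eI a), ?_, fun a => hw1 _, ?_⟩
  · rw [hIcard]
    apply Nat.pow_le_pow_right (by norm_num)
    have := finrank_le_LL l
    omega
  · intro a a' haa'
    by_contra hcon
    push Not at hcon
    apply haa'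
    apply eI.injective
    apply Subtype.ext
    set A : Finset (Fin n') := (eI a : Finset (Fin n')) with hA
    set A' : Finset (Fin n') := (eI a' : Finset (Fin n')) with hA'
    have hA0 : i0 ∉ A := hImem _ (eI a).2
    have hA0' : i0 ∉ A' := hImem _ (eI a').2
    -- the parity
    have hpar : ∃ ε : ℤ, (ε = 0 ∨ ε = 1) ∧ ∀ j, ∃ m : ℤ, (v A : Fin k → ℤ) j +
        (v A' : Fin k → ℤ) j + ε = 2 * m := by
      have hj0 : ∀ j, (-1:ℤ) ^ (w A j + w A' j) = (-1) ^ (w A ⟨0, hk⟩ + w A' ⟨0, hk⟩) :=
        fun j => hcon j ⟨0, hk⟩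
      rcases Nat.even_or_odd (w A ⟨0, hk⟩ + w A' ⟨0, hk⟩) with h0 | h0
      · refine ⟨0, Or.inl rfl, fun j => ?_⟩
        have h2 := neg_one_pow_parity _ _ (hj0 j)
        have h3 : Even (w A j + w A' j) := by
          rw [Nat.even_add] at h2
          exact h2.mpr h0
        obtain ⟨m, hm⟩ := h3
        have h4 := hw2 A j
        have h5 := hw2 A' j
        refine ⟨m - M A - M A', ?_⟩
        have h6 : ((w A j + w A' j : ℕ) : ℤ) = m + m := by exact_mod_cast hm
        push_cast at h6
        linarith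
      · refine ⟨1, Or.inr rfl, fun j => ?_⟩
        have h2 := neg_one_pow_parity _ _ (hj0 j)
        have h3 : Odd (w A j + w A' j) := by
          rw [← Nat.not_even_iff_odd] at h0 ⊢
          rw [Nat.even_add] at h2
          exact fun h => h0 (h2.mp h)
        obtain ⟨m, hm⟩ := h3
        have h4 := hw2 A j
        have h5 := hw2 A' j
        refine ⟨m + 1 - M A - M A', ?_⟩
        have h6 : ((w A j + w A' j : ℕ) : ℤ) = 2 * m + 1 := by exact_mod_cast hm
        push_cast at h6
        linarith
    obtain ⟨ε, hε, hpar⟩ := hpar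
    choose m hm using hpar
    have hmem : m ∈ LL l := by
      apply half_mem (u := (v A : Fin k → ℤ) + (v A' : Fin k → ℤ) + ε • one1)
      · exact Submodule.add_mem _ (Submodule.add_mem _ (v A).2 (v A').2)
          (Submodule.smul_mem _ _ h1)
      · intro j
        rw [← hm j]
        simp [one1]
    have heq : v A + v A' + ε • o = (2:ℤ) • (⟨m, hmem⟩ : LL l) := by
      apply Subtype.ext
      funext j
      have := hm j
      simp only [Submodule.coe_add, Submodule.coe_smul, Pi.add_apply, Pi.smul_apply, ho, one1,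
        smul_eq_mul, mul_one]
      exact this
    have hrv : ∀ B : Finset (Fin n'), ∀ i, β.repr (v B) i = if i ∈ B then 1 else 0 := by
      intro B i
      rw [hv]
      simp only [map_sum, Basis.repr_self, Finsupp.coe_finsetSum, Finset.sum_apply,
        Finsupp.single_apply]
      simp
    have hcoord : ∀ i, (if i ∈ A then (1:ℤ) else 0) + (if i ∈ A' then 1 else 0) +
        ε * β.repr o i = 2 * β.repr ⟨m, hmem⟩ i := by
      intro i
      have h2 := congrArg (fun x => β.repr x i) heq
      simp only [map_add, map_smul, Finsupp.add_apply, Finsupp.smul_apply, smul_eq_mul, hrv] at h2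
      exact h2
    have hε0 : ε = 0 := by
      rcases hε with h | h
      · exact h
      · exfalso
        have h2 := hcoord i0
        rw [if_neg hA0, if_neg hA0', h] at h2
        obtain ⟨q, hq⟩ := hi0
        rw [hq] at h2
        omega
    ext i
    have h2 := hcoord i
    rw [hε0] at h2
    by_cases hiA : i ∈ A <;> by_cases hiA' : i ∈ A'
    · exact ⟨fun _ => hiA', fun _ => hiA⟩
    · rw [if_pos hiA, if_neg hiA'] at h2
      omega
    · rw [if_neg hiA, if_pos hiA'] at h2
      omega
    · exact ⟨fun h => absurd h hiA, fun h => absurd h hiA'⟩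

end Pool.Agent.Helper99.TD
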