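import Mathlib
import Pool.Agent.Helper99.TD.Av

/-!
# Generic directions
-/

set_option autoImplicit false

open Finset Polynomial

namespace Pool.Agent.Helper99.TD

variable {k : ℕ}

/-- an irreducible polynomial is coprime to its sign twists -/
lemma twist_coprime (c : Fin k → ℤ) {e : Fin k → ℕ} (he : Function.Injective e) {D : ℕ}
    (hDpos : 0 < D) (hD : ∀ j, e j ≤ D) (jt : Fin k) (hjt : e jt = D)
    (hc : ∀ j, c j ≠ 0) (hirr : Irreducible (TP c e (fun _ => (1:ℤ)))) (s : Fin k → ℤ)
    (hs : ∀ j, s j ≠ 0) (hns : ∃ j j', s j ≠ s j') :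
    RS c e D (fun _ => (1:ℤ)) s ≠ 0 := by
  intro h0
  set F := TP c e (fun _ => (1:ℤ)) with hF
  set F' := TP c e s with hF'
  have hinj : Function.Injective (Int.castRingHom ℚ) := RingHom.injective_int _
  have hcoefF : ∀ j, F.coeff (e j) = c j := by
    intro j
    rw [hF, TP_coeff c he]
    simp
  have hcoefF' : ∀ j, F'.coeff (e j) = c j * s j := by
    intro j
    rw [hF', TP_coeff c he]
    simp
  have hFd : F.natDegree = D := by
    apply le_antisymm (TP_natDegree_le c e _ hD)
    apply le_natDegree_of_ne_zero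
    rw [← hjt, hcoefF]
    exact hc jt
  have hF'd : F'.natDegree = D := by
    apply le_antisymm (TP_natDegree_le c e _ hD)
    apply le_natDegree_of_ne_zero
    rw [← hjt, hcoefF']
    exact mul_ne_zero (hc jt) (hs jt)
  have hprim : F.IsPrimitive := hirr.isPrimitive (by rw [hFd]; omega)
  have hirrQ : Irreducible (F.map (Int.castRingHom ℚ)) :=
    (IsPrimitive.Int.irreducible_iff_irreducible_map_cast hprim).mp hirr
  have hresQ : resultant (F.map (Int.castRingHom ℚ)) (F'.map (Int.castRingHom ℚ)) D D = 0 := by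
    rw [resultant_map_map]
    have : resultant F F' D D = 0 := h0
    rw [this, map_zero]
  have hd1 : (F.map (Int.castRingHom ℚ)).natDegree = D := by
    rw [natDegree_map_eq_of_injective hinj, hFd]
  have hd2 : (F'.map (Int.castRingHom ℚ)).natDegree = D := by
    rw [natDegree_map_eq_of_injective hinj, hF'd]
  have h1 : ¬ IsCoprime (F.map (Int.castRingHom ℚ)) (F'.map (Int.castRingHom ℚ)) := by
    have h2 := (resultant_eq_zero_iff (f := F.map (Int.castRingHom ℚ))
      (g := F'.map (Int.castRingHom ℚ))).mp (by rw [hd1, hd2]; exact hresQ)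
    exact h2.2
  have h2 : F.map (Int.castRingHom ℚ) ∣ F'.map (Int.castRingHom ℚ) :=
    (hirrQ.isCoprime_or_dvd _).resolve_left h1
  obtain ⟨q, hq⟩ := h2
  have hne : F'.map (Int.castRingHom ℚ) ≠ 0 := by
    intro h
    rw [h, natDegree_zero] at hd2
    omega
  have hq0 : q ≠ 0 := by
    rintro rfl
    rw [mul_zero] at hq
    exact hne hq
  have hqd : q.natDegree = 0 := by
    have h3 := congrArg natDegree hq
    rw [natDegree_mul hirrQ.ne_zero hq0, hd1, hd2] at h3
    omega
  obtain ⟨a, ha⟩ := natDegree_eq_zero.mp hqd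
  have hco : ∀ j, (s j : ℚ) = a := by
    intro j
    have h3 := congrArg (fun p => p.coeff (e j)) hq
    simp only [← ha, coeff_map, coeff_mul_C, hcoefF, hcoefF', eq_intCast] at h3
    push_cast at h3
    have h4 : (c j : ℚ) ≠ 0 := Int.cast_ne_zero.mpr (hc j)
    exact mul_left_cancel₀ h4 h3
  obtain ⟨j, j', hjj'⟩ := hns
  apply hjj'
  have h5 : (s j : ℚ) = s j' := by rw [hco, hco]
  exact_mod_cast h5

/-- existence of a generic direction -/
theorem exists_generic {ι : Type*} [Fintype ι] [DecidableEq ι] (c : Fin k → ℤ) {e : Fin k → ℕ}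
    (he : Function.Injective e) {D : ℕ} (hDpos : 0 < D) (hD : ∀ j, e j ≤ D) (jt : Fin k)
    (hjt : e jt = D) (hc : ∀ j, c j ≠ 0) (hirr : Irreducible (TP c e (fun _ => (1:ℤ))))
    (w : ι → Fin k → ℕ) (hw : ∀ i i', i ≠ i' → ∃ j j', (-1:ℤ) ^ (w i j + w i' j) ≠
      (-1) ^ (w i j' + w i' j')) :
    ∃ b : ι → ℕ, ∀ i i', i ≠ i' → RS c e D (yv (w i) (fun j => ∑ l, b l * w l j) (X : ℤ[X]))
      (yv (w i') (fun j => ∑ l, b l * w l j) X) ≠ 0 := by
  classical
  set mo : Fin k → MvPolynomial ι ℤ := fun j => ∏ l, MvPolynomial.X l ^ (w l j) with hmo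
  set S : ι × ι → MvPolynomial ι ℤ := fun p => RS c e D (fun j => (-1) ^ (w p.1 j) * mo j)
    (fun j => (-1) ^ (w p.2 j) * mo j) with hS
  have hSne : ∀ p : ι × ι, p.1 ≠ p.2 → S p ≠ 0 := by
    rintro ⟨i, i'⟩ hii' h0
    dsimp only at hii'
    have h1 := congrArg (MvPolynomial.eval (fun l => if l = i then (-1:ℤ) else 1)) h0
    rw [map_zero, hS] at h1
    dsimp only at h1
    have hmoev : ∀ j, MvPolynomial.eval (fun l => if l = i then (-1:ℤ) else 1) (mo j) =
        (-1) ^ (w i j) := by
      intro j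
      rw [hmo, map_prod, Finset.prod_eq_single i]
      · simp
      · intro l _ hl
        simp [hl]
      · intro h; exact absurd (Finset.mem_univ _) h
    rw [RS_map c e D _ _ (MvPolynomial.eval (fun l => if l = i then (-1:ℤ) else 1))] at h1
    simp only [map_mul, map_pow, map_neg, map_one, hmoev] at h1
    have e1 : (fun j => (-1:ℤ) ^ (w i j) * (-1) ^ (w i j)) = fun _ => (1:ℤ) := by
      funext j
      rw [← pow_add, ← two_mul, pow_mul]
      simp
    rw [e1] at h1
    refine twist_coprime c he hDpos hD jt hjt hc hirr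
      (fun j => (-1:ℤ) ^ (w i' j) * (-1) ^ (w i j)) ?_ ?_ h1
    · intro j
      exact mul_ne_zero (pow_ne_zero _ (by norm_num)) (pow_ne_zero _ (by norm_num))
    · obtain ⟨j, j', hjj'⟩ := hw i i' hii'
      refine ⟨j, j', ?_⟩
      rw [← pow_add, ← pow_add, add_comm (w i' j), add_comm (w i' j')]
      exact hjj'
  set T : MvPolynomial ι ℤ := ∏ p ∈ (Finset.univ : Finset (ι × ι)).filter (fun p => p.1 ≠ p.2), S p
    with hT
  have hTne : T ≠ 0 := by
    rw [hT, Finset.prod_ne_zero_iff]
    intro p hp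
    exact hSne p (Finset.mem_filter.mp hp).2
  obtain ⟨b, hb⟩ : ∃ b : ι → ℕ, MvPolynomial.eval (fun l => (2:ℤ) ^ (b l)) T ≠ 0 := by
    by_contra hcon
    push Not at hcon
    apply hTne
    apply MvPolynomial.funext_set (fun _ : ι => Set.range (fun n : ℕ => (2:ℤ) ^ n))
    · intro _
      apply Set.infinite_range_of_injective
      intro x y hxy
      exact Int.pow_right_injective (by norm_num) hxy
    · intro x hx
      have hx' : ∀ l, ∃ n : ℕ, (2:ℤ) ^ n = x l := fun l => hx l (Set.mem_univ _)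
      choose b hb using hx'
      have : x = fun l => (2:ℤ) ^ (b l) := funext fun l => (hb l).symm
      rw [this, hcon b, map_zero]
  refine ⟨b, fun i i' hii' h0 => ?_⟩
  have h1 : MvPolynomial.eval (fun l => (2:ℤ) ^ (b l)) (S (i, i')) ≠ 0 := by
    rw [hT, map_prod, Finset.prod_ne_zero_iff] at hb
    exact hb (i, i') (Finset.mem_filter.mpr ⟨Finset.mem_univ _, hii'⟩)
  apply h1
  rw [hS]
  dsimp only
  rw [RS_map c e D _ _ (MvPolynomial.eval (fun l => (2:ℤ) ^ (b l)))]
  have h2 := congrArg (Polynomial.evalRingHom (2:ℤ)) h0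
  rw [map_zero, RS_map, yv_map, yv_map] at h2
  simp only [coe_evalRingHom, eval_X] at h2
  have hy : ∀ i : ι, (fun j => MvPolynomial.eval (fun l => (2:ℤ) ^ (b l))
      ((-1) ^ (w i j) * mo j)) = yv (w i) (fun j => ∑ l, b l * w l j) (2:ℤ) := by
    intro i
    funext j
    unfold yv
    rw [map_mul, map_pow, map_neg, map_one, hmo]
    dsimp only
    rw [map_prod]
    congr 1
    simp only [map_pow, MvPolynomial.eval_X]
    rw [← Finset.prod_pow_eq_pow_sum]
    refine Finset.prod_congr rfl fun l _ => ?_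
    rw [← pow_mul]
  rw [hy i, hy i']
  exact h2

end Pool.Agent.Helper99.TD
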