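import Mathlib
import Pool.Agent.Helper99.TD.Fa
import Pool.Agent.Helper99.TD.Ge

/-!
# The additive dimension of the exponents of irreducible polynomials of small Mahler measure
-/

set_option autoImplicit false

open Set MeasureTheory Module

namespace Pool.Agent.Helper99.TD

open Pool.Agent.Helper99.MK
open Pool.Agent.H338R2.AS (es sp lm Sim small_values)
open Pool.Agent.H338R2.AS.T3 (VV VV_meas VV_tendsto zero_null es_continuous es_norm_le lm_eq
  log_integrable)

/-- short relations from a closed subspace -/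
theorem relations {r : ℕ} (l : List (Fin (r + 1) → ℤ)) {ρ : ℝ} (hρ : 0 < ρ) (hρ1 : ρ ≤ 1)
    (hl2 : Clo (spn l) ρ) {M : ℕ}
    (hM : (1 - 4 * (ρ / 3) ^ 2) ^ M < (1 / (2 * M + 1) : ℝ) ^ (r + 1)) :
    ∃ (m : ℕ) (H : Fin m → Fin (r + 1) → ℤ), LinearIndependent ℤ H ∧
      (∀ i, ∀ w ∈ l, idot (H i) w = 0) ∧
      (∀ i, ∑ j, |H i j| ≤ ((r + 1 : ℕ) : ℤ) * M) ∧ r + 1 ≤ m + finrank ℝ (spn l) := by
  set R : Set (Fin (r + 1) → ℝ) := {v | ∃ Hh : Fin (r + 1) → ℤ, (∀ w ∈ l, idot Hh w = 0) ∧
    ∑ j, |Hh j| ≤ ((r + 1 : ℕ) : ℤ) * M ∧ v = ic Hh} with hR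
  obtain ⟨m, f, hf1, hf2, hf3⟩ : ∃ (m : ℕ) (f : Fin m → Fin (r + 1) → ℝ), (∀ i, f i ∈ R) ∧
      Submodule.span ℝ (Set.range f) = Submodule.span ℝ R ∧ LinearIndependent ℝ f :=
    ⟨_, Submodule.exists_fun_fin_finrank_span_eq ℝ R⟩
  choose Hf hHf1 hHf2 hHf3 using hf1
  let Φ : (Fin (r + 1) → ℝ) →ₗ[ℝ] (Fin m → ℝ) :=
    { toFun := fun a => fun i => ∑ j, (Hf i j : ℝ) * a j
      map_add' := by
        intro a b
        ext i
        simp only [Pi.add_apply]
        rw [← Finset.sum_add_distrib]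
        exact Finset.sum_congr rfl fun j _ => by ring
      map_smul' := by
        intro t a
        ext i
        simp only [Pi.smul_apply, smul_eq_mul, RingHom.id_apply]
        rw [Finset.mul_sum]
        exact Finset.sum_congr rfl fun j _ => by ring }
  have hker : LinearMap.ker Φ ≤ spn l := by
    intro a ha
    rw [LinearMap.mem_ker] at ha
    apply transference hρ hρ1 hl2 a M hM
    intro Hh hHh hlen
    let ψ : (Fin (r + 1) → ℝ) →ₗ[ℝ] ℝ :=
      { toFun := fun v => ∑ j, v j * a j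
        map_add' := by
          intro v w
          simp only [Pi.add_apply]
          rw [← Finset.sum_add_distrib]
          exact Finset.sum_congr rfl fun j _ => by ring
        map_smul' := by
          intro t v
          simp only [Pi.smul_apply, smul_eq_mul, RingHom.id_apply]
          rw [Finset.mul_sum]
          exact Finset.sum_congr rfl fun j _ => by ring }
    have h1 : Submodule.span ℝ (Set.range f) ≤ LinearMap.ker ψ := by
      rw [Submodule.span_le]
      rintro _ ⟨i, rfl⟩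
      change ψ (f i) = 0
      rw [hHf3 i]
      have := congrFun ha i
      exact this
    have h2 : ic Hh ∈ Submodule.span ℝ (Set.range f) := by
      rw [hf2]
      exact Submodule.subset_span ⟨Hh, hHh, by exact_mod_cast hlen, rfl⟩
    exact h1 h2
  have hrank : r + 1 ≤ m + finrank ℝ (spn l) := by
    have h1 := LinearMap.finrank_range_add_finrank_ker Φ
    have h2 : finrank ℝ (LinearMap.range Φ) ≤ m := by
      have := Submodule.finrank_le (LinearMap.range Φ)
      rwa [finrank_fin_fun] at this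
    have h3 := Submodule.finrank_mono hker
    rw [finrank_fin_fun] at h1
    omega
  refine ⟨m, Hf, ?_, hHf1, hHf2, hrank⟩
  have h1 : LinearIndependent ℤ f := LinearIndependent.restrict_scalars (R := ℤ) (K := ℝ)
      (by
        intro a b hab
        simpa using hab) hf3
  let φ : (Fin (r + 1) → ℤ) →ₗ[ℤ] (Fin (r + 1) → ℝ) :=
      { toFun := ic
        map_add' := fun a b => ic_add a b
        map_smul' := by
          intro t b
          ext j
          simp [ic] }
  have h2 : f = φ ∘ Hf := by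
    ext i j
    rw [hHf3 i]
    rfl
  rw [h2] at h1
  exact LinearIndependent.of_comp φ h1

lemma TP_one (k : ℕ) (c : Fin k → ℤ) (e : Fin k → ℕ) :
    TP c e (fun _ => (1:ℤ)) = sp c e := by
  unfold TP sp
  refine Finset.sum_congr rfl fun j _ => ?_
  rw [mul_one, Int.cast_id]

open Polynomial in
lemma exists_zero_exp {r : ℕ} (hr : 1 ≤ r) (c : Fin (r + 1) → ℤ) (hc : ∀ j, c j ≠ 0)
    (e : Fin (r + 1) → ℕ) (he : Function.Injective e) (hirr : Irreducible (sp c e)) :
    ∃ j, e j = 0 := by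
  by_contra hcon
  push Not at hcon
  have hcoef : ∀ j, (sp c e).coeff (e j) = c j := by
    intro j
    rw [← TP_one, TP_coeff c he]
    simp
  have h0 : (sp c e).coeff 0 = 0 := by
    unfold sp
    rw [finsetSum_coeff]
    apply Finset.sum_eq_zero
    intro j _
    rw [coeff_C_mul, coeff_X_pow, if_neg (hcon j).symm, mul_zero]
  obtain ⟨q, hq⟩ := X_dvd_iff.mpr h0
  rcases hirr.isUnit_or_isUnit hq with h | h
  · exact not_isUnit_X h
  · obtain ⟨u, hu, rfl⟩ := Polynomial.isUnit_iff.mp h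
    have h1 : ∀ j, e j = 1 := by
      intro j
      by_contra hj
      have h2 := hcoef j
      rw [hq, mul_comm, coeff_C_mul, coeff_X, if_neg (fun h => hj h.symm), mul_zero] at h2
      exact hc j h2.symm
    have h2 : (⟨0, by omega⟩ : Fin (r + 1)) = ⟨1, by omega⟩ := he (by rw [h1, h1])
    simp at h2

/-- the values of the twisted polynomials -/
lemma eval_TP {k : ℕ} (c : Fin k → ℤ) (e : Fin k → ℕ) (w e' : Fin k → ℕ) (τ t : ℝ) :
    Polynomial.eval (ep t) (TP c e (yv w e' (ep τ))) = FF (fun j => (c j : ℂ))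
      (((1 / 2 : ℝ) • ic (fun j => (w j : ℤ)) + τ • ic (fun j => (e' j : ℤ))) +
        t • ic (fun j => (e j : ℤ))) := by
  unfold TP FF
  rw [Polynomial.eval_finsetSum]
  refine Finset.sum_congr rfl fun j _ => ?_
  rw [Polynomial.eval_mul, Polynomial.eval_C, Polynomial.eval_pow, Polynomial.eval_X, mul_assoc]
  congr 1
  unfold yv
  rw [ep_pow, ep_pow]
  have h1 : ((-1:ℂ)) ^ (w j) = Complex.exp (2 * Real.pi * Complex.I * (((1 / 2 : ℝ) * (w j : ℝ) : ℝ))) := by
    rw [← Complex.exp_pi_mul_I, ← Complex.exp_nat_mul]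
    congr 1
    push_cast
    ring
  rw [h1, ← Complex.exp_add, ← Complex.exp_add]
  congr 1
  simp only [Pi.add_apply, Pi.smul_apply, ic, smul_eq_mul]
  push_cast
  ring

/-- averages over the closure and over the directions `E'`, `E` -/
lemma close3 {k : ℕ} {ρ : ℝ} {l : List (Fin k → ℤ)} {E : Fin k → ℤ}
    (hl1 : spn [E, one1] ≤ spn l) (hl2 : Clo (spn l) ρ)
    (hl3 : ∀ U : Submodule ℝ (Fin k → ℝ), Clo U ρ → spn [E, one1] ≤ U → spn l ≤ U)
    {E' : Fin k → ℤ} (hE' : ic E' ∈ spn l) {f : (Fin k → ℝ) → ℝ} {V : ℝ} {S : ℕ} (hf : Good f)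
    (hV : VB f V) (hS : 1 ≤ S) (hSρ : S * ρ ≤ 1 / 8) (x : Fin k → ℝ) :
    |PL l f x - PL [E', E, one1] f x| ≤ k * (V / S) := by
  obtain ⟨l2, h1, h2, h3, h4⟩ := closure_exists ρ k [E', E, one1] (by omega)
  have hle : spn [E', E, one1] ≤ spn l := by
    rw [spn_cons]
    apply sup_le _ hl1
    rw [Submodule.span_singleton_le_iff_mem]
    exact hE'
  have hle2 : spn [E, one1] ≤ spn [E', E, one1] := by
    rw [spn_cons E']
    exact le_sup_right
  have heq : spn l = spn l2 := le_antisymm (hl3 _ h2 (hle2.trans h1)) (h3 _ hl2 hle)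
  rw [PL_eq_of_spn_eq hf heq]
  exact h4 f V S hf hV hS hSρ x

lemma PP_one {k : ℕ} (c : Fin k → ℂ) (δ : ℝ) : PP one1 (gg c δ) = gg c δ := PP_of_mem (gg_one c δ)

lemma log_max_cont {k : ℕ} (c : Fin k → ℂ) (E : Fin k → ℤ) {δ : ℝ} (hδ : 0 < δ) :
    Continuous fun t => Real.log (max ‖es c E t‖ δ) := by
  apply Continuous.log
  · exact (es_continuous c E).norm.max continuous_const
  · intro t
    exact (lt_max_of_lt_right hδ).ne'

/-- the numerical conclusion -/
lemma numeric {N D lm mp η : ℝ} (hN : 2 ≤ N) (hD : 0 < D) (hη0 : 0 < η) (hη1 : η ≤ 1)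
    (hmp : 0 ≤ mp) (hlm : lm ≤ Real.log 2 / 2 - 2 * η) (hlm0 : 0 ≤ lm)
    (h : ∀ κ : ℝ, 0 < κ → κ ≤ 1 → N * (N - 1) * (D * Real.log 2) ≤
      N * (D * (93600000000000 * (2 + 4 * (mp + η) + 2 * (lm + η)) * (1 + Real.log (1 / κ))) +
      2 * N * D * (κ * (1300000000000 * (2 + 4 * (mp + η) + 2 * (lm + η)))) +
      2 * D * (N - 1) * (lm + η))) :
    N ≤ 2 * 10 ^ 16 / η * (1 + mp) * (1 + Real.log ((1 + mp) / η)) := by
  set Wb : ℝ := 2 + 4 * (mp + η) + 2 * (lm + η) with hWb
  have hl2 := Real.log_two_lt_d9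
  have hWb0 : 2 ≤ Wb := by rw [hWb]; linarith
  have hWb5 : Wb ≤ 5 * (1 + mp) := by
    rw [hWb]
    nlinarith
  set κ : ℝ := η / (4 * 1300000000000 * Wb) with hκ
  have hκ0 : 0 < κ := by positivity
  have hκ1 : κ ≤ 1 := by
    rw [hκ, div_le_one (by positivity)]
    nlinarith
  have h1 := h κ hκ0 hκ1
  have h2 : (N - 1) * Real.log 2 ≤ 93600000000000 * Wb * (1 + Real.log (1 / κ)) +
      2 * N * (κ * (1300000000000 * Wb)) + 2 * (N - 1) * (lm + η) := by
    have hND : 0 < N * D := by positivity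
    apply le_of_mul_le_mul_left _ hND
    linarith
  have h3 : 2 * N * (κ * (1300000000000 * Wb)) = N * η / 2 := by
    rw [hκ]
    field_simp
    ring
  have h4 : (N - 1) * η ≤ 93600000000000 * Wb * (1 + Real.log (1 / κ)) := by
    rw [h3] at h2
    nlinarith
  have e3 : 1 ≤ (1 + mp) / η := by
    rw [le_div_iff₀ hη0]
    linarith
  have hLg : 0 ≤ Real.log ((1 + mp) / η) := Real.log_nonneg e3
  have hlogκ : Real.log (1 / κ) ≤ 32 + Real.log ((1 + mp) / η) := by
    have e1 : 1 / κ = (4 * 1300000000000 * Wb) / η := by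
      rw [hκ, one_div_div]
    have e2 : (4 * 1300000000000 * Wb) / η ≤ 26000000000000 * ((1 + mp) / η) := by
      rw [mul_div_assoc', div_le_div_iff_of_pos_right hη0]
      linarith
    have e4 : Real.log 26000000000000 ≤ 32 := by
      have h5 : Real.log 26000000000000 ≤ Real.log (2 ^ 45) :=
        Real.log_le_log (by norm_num) (by norm_num)
      rw [Real.log_pow] at h5
      push_cast at h5
      linarith
    rw [e1]
    calc Real.log ((4 * 1300000000000 * Wb) / η) ≤ Real.log (26000000000000 * ((1 + mp) / η)) :=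
          Real.log_le_log (by positivity) e2
      _ = Real.log 26000000000000 + Real.log ((1 + mp) / η) := by
          rw [Real.log_mul (by norm_num) (by linarith)]
      _ ≤ _ := by linarith
  have h5 : (N - 1) * η ≤ 15444000000000000 * ((1 + mp) * (1 + Real.log ((1 + mp) / η))) := by
    calc (N - 1) * η ≤ 93600000000000 * Wb * (1 + Real.log (1 / κ)) := h4
      _ ≤ 93600000000000 * (5 * (1 + mp)) * (1 + (32 + Real.log ((1 + mp) / η))) := by
          have hk : 0 ≤ Real.log (1 / κ) := Real.log_nonneg (by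
            rw [le_div_iff₀ hκ0]; linarith)
          gcongr
      _ ≤ 93600000000000 * (5 * (1 + mp)) * (33 * (1 + Real.log ((1 + mp) / η))) := by
          apply mul_le_mul_of_nonneg_left _ (by positivity)
          linarith
      _ = _ := by ring
  have h6 : 1 ≤ (1 + mp) * (1 + Real.log ((1 + mp) / η)) := by
    nlinarith
  have h7 : N ≤ 1 + 15444000000000000 * ((1 + mp) * (1 + Real.log ((1 + mp) / η))) / η := by
    have : N - 1 ≤ 15444000000000000 * ((1 + mp) * (1 + Real.log ((1 + mp) / η))) / η := by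
      rw [le_div_iff₀ hη0]
      exact h5
    linarith
  have h8 : (1:ℝ) ≤ 4556000000000000 * ((1 + mp) * (1 + Real.log ((1 + mp) / η))) / η := by
    rw [le_div_iff₀ hη0]
    nlinarith
  calc N ≤ 1 + 15444000000000000 * ((1 + mp) * (1 + Real.log ((1 + mp) / η))) / η := h7
    _ ≤ 4556000000000000 * ((1 + mp) * (1 + Real.log ((1 + mp) / η))) / η +
        15444000000000000 * ((1 + mp) * (1 + Real.log ((1 + mp) / η))) / η := by linarith
    _ = 2 * 10 ^ 16 / η * (1 + mp) * (1 + Real.log ((1 + mp) / η)) := by ring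

/-- the additive dimension of the exponents of an irreducible polynomial -/
theorem main_td {r : ℕ} (hr : 1 ≤ r) (c : Fin (r + 1) → ℤ) (hc : ∀ j, c j ≠ 0)
    (e : Fin (r + 1) → ℕ) (he : Function.Injective e) {η : ℝ} (hη : 0 < η) (hη1 : η ≤ 1)
    (hirr : Irreducible (sp c e)) (hlm : lm (sp c e) ≤ Real.log 2 / 2 - 2 * η) {mp : ℝ}
    (hmp : mp = Real.circleAverage
      (fun z => Real.posLog ‖Polynomial.aeval z (sp c e)‖) 0 1) :
    ∃ (m : ℕ) (H : Fin m → Fin (r + 1) → ℤ), LinearIndependent ℤ H ∧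
      (∀ i, ∑ j, H i j = 0 ∧ ∑ j, H i j * (e j : ℤ) = 0 ∧
        ∑ j, |H i j| ≤ (mK (r + 1) η : ℤ)) ∧
      (2:ℝ) ^ (r - m) ≤ 2 * 10 ^ 16 / η * (1 + mp) * (1 + Real.log ((1 + mp) / η)) := by
  classical
  have hk : 2 ≤ r + 1 := by omega
  set K : ℝ := ((r + 1 : ℕ) : ℝ) with hkdef
  have hk2 : (2:ℝ) ≤ K := by rw [hkdef]; exact_mod_cast hk
  have herr := err_le hk hη hη1
  set S := SS (r + 1) η with hSdef
  have hS : 1 ≤ S := SS_pos hk hη
  have hSpos : (1:ℝ) ≤ S := by exact_mod_cast hS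
  set ρ : ℝ := 1 / (8 * (S:ℝ)) with hρdef
  have hρ : 0 < ρ := by positivity
  have hρ8 : ρ ≤ 1 / 8 := by
    rw [hρdef]
    apply div_le_div_of_nonneg_left zero_le_one (by norm_num)
    linarith
  have hρ1 : ρ ≤ 1 := by linarith
  have hSρ : S * ρ ≤ 1 / 8 := by
    rw [hρdef]
    apply le_of_eq
    field_simp
  set M := (288 * (r + 1) * S ^ 2) ^ 2 with hMdef
  have hM : (1 - 4 * (ρ / 3) ^ 2) ^ M < (1 / (2 * M + 1) : ℝ) ^ (r + 1) := hM_holds hk hS
  set s : ℝ := η / (80 * K ^ 2) with hs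
  have hs0 : 0 < s := by positivity
  have hs1 : s ≤ 1 := by
    rw [hs, div_le_one (by positivity)]
    nlinarith
  -- coefficients
  obtain ⟨j₀, hj₀⟩ := Finite.exists_max (fun j => ‖(c j : ℂ)‖)
  set C : Fin (r + 1) → ℂ := fun j => (c j : ℂ) with hC
  have hCne : ∀ j, C j ≠ 0 := fun j => Int.cast_ne_zero.mpr (hc j)
  set H₀ : ℝ := ‖C j₀‖ with hH
  set L : ℝ := ∑ j, ‖C j‖ with hL
  have hHpos : 0 < H₀ := by rw [hH, norm_pos_iff]; exact hCne j₀
  have hH1 : 1 ≤ H₀ := by
    rw [hH, hC]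
    dsimp only
    rw [Complex.norm_intCast]
    have : (1:ℤ) ≤ |c j₀| := Int.one_le_abs (hc j₀)
    exact_mod_cast this
  have hHL : H₀ ≤ L := Finset.single_le_sum (f := fun j => ‖C j‖) (fun j _ => norm_nonneg _)
    (Finset.mem_univ j₀)
  have hL1 : 1 ≤ L := hH1.trans hHL
  have hLH : L ≤ (r + 1) * H₀ := by
    have := Finset.sum_le_card_nsmul Finset.univ (fun j => ‖C j‖) H₀ (fun j _ => hj₀ j)
    simpa using this
  have hLpos : 0 < L := by linarith
  set δ : ℝ := (s / 2) ^ r * H₀ with hδdef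
  have hδ : 0 < δ := by positivity
  have hδH : δ ≤ H₀ := by
    rw [hδdef]
    apply mul_le_of_le_one_left hHpos.le
    apply pow_le_one₀ (by positivity)
    linarith
  have hδL : δ ≤ L := hδH.trans hHL
  set δ' : ℝ := max δ 1 with hδ'def
  have hδ'1 : 1 ≤ δ' := le_max_right _ _
  have hδδ' : δ ≤ δ' := le_max_left _ _
  have hδ' : 0 < δ' := by linarith
  have hδ'L : δ' ≤ L := max_le hδL hL1
  set V : ℝ := (2 * (((r + 1 : ℕ) : ℝ) ^ 2 + 1)) * Real.log (L / δ) with hV
  have hlog : Real.log (L / δ) ≤ Real.log (r + 1) + r * Real.log (2 / s) := by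
    have h1 : L / δ ≤ (r + 1) * (2 / s) ^ r := by
      rw [div_le_iff₀ hδ, hδdef]
      calc L ≤ (r + 1) * H₀ := hLH
        _ = (r + 1) * (2 / s) ^ r * ((s / 2) ^ r * H₀) := by
            have : (2 / s) ^ r * (s / 2) ^ r = 1 := by
              rw [← mul_pow, show 2 / s * (s / 2) = 1 by field_simp, one_pow]
            linear_combination (-(r + 1) * H₀) * this
    calc Real.log (L / δ) ≤ Real.log ((r + 1) * (2 / s) ^ r) :=
          Real.log_le_log (by positivity) h1
      _ = Real.log (r + 1) + r * Real.log (2 / s) := by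
          rw [Real.log_mul (by positivity) (by positivity), Real.log_pow]
  have herr2 : 2 * (K * (V / S)) + (r * Real.log 2) * (40 * r * s) ≤ η := by
    refine le_trans ?_ herr
    rw [hV]
    gcongr
  -- the closure
  set E : Fin (r + 1) → ℤ := fun j => (e j : ℤ) with hE
  have hEinj : Function.Injective E := fun x y hxy => he (Nat.cast_injective hxy)
  obtain ⟨l, hl1, hl2, hl3, hl4⟩ := closure_exists ρ (r + 1) [E, one1] (by omega)
  have hEl : ic E ∈ spn l := hl1 (mem_spn (by simp))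
  have h1l : ic (one1 : Fin (r + 1) → ℤ) ∈ spn l := hl1 (mem_spn (by simp))
  -- the relations
  obtain ⟨m, H, hHli, hHl, hHlen, hrank⟩ := relations l hρ hρ1 hl2 hM
  refine ⟨m, H, hHli, fun i => ?_, ?_⟩
  · have e1 := dot_zero_of_mem (hHl i) hEl
    have e2 := dot_zero_of_mem (hHl i) h1l
    refine ⟨?_, ?_, ?_⟩
    · have : ((∑ j, H i j : ℤ) : ℝ) = 0 := by
        rw [← e2]
        push_cast
        refine Finset.sum_congr rfl fun j _ => ?_
        simp [ic, one1]
      exact_mod_cast this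
    · have : ((∑ j, H i j * (e j : ℤ) : ℤ) : ℝ) = 0 := by
        rw [← e1]
        push_cast
        refine Finset.sum_congr rfl fun j _ => ?_
        simp [ic, hE]
      exact_mod_cast this
    · have h1 := hHlen i
      have h2 : mK (r + 1) η = (r + 1) * M := rfl
      rw [h2]
      push_cast at h1 ⊢
      exact h1
  -- basic facts on the Mahler measure and the mean of log⁺
  have htail := tail_bound hr (es_continuous C E) hHpos hs0
    (fun s hs => small_values C E hEinj j₀ s hs) (log_integrable c e)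
  have hbase : PL [E, one1] (gg C δ) 0 ≤ lm (sp c e) + (r * Real.log 2) * (40 * r * s) := by
    rw [PL_pair C hδ E, lm_eq]
    have := htail.2
    linarith
  have htail0 : 0 ≤ (r * Real.log 2) * (40 * r * s) := by
    have := Real.log_nonneg (show (1:ℝ) ≤ 2 by norm_num)
    positivity
  have hsp0 : sp c e ≠ 0 := hirr.ne_zero
  have hlm0 : 0 ≤ lm (sp c e) := lmm_int_nonneg hsp0
  have hmp_eq : mp = ∫ t in (0:ℝ)..1, Real.posLog ‖Polynomial.eval (ep t)
      ((sp c e).map (Int.castRingHom ℂ))‖ := by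
    rw [hmp, circle_int]
    refine intervalIntegral.integral_congr fun t _ => ?_
    simp only [Polynomial.eval_map, Polynomial.aeval_def]
    rfl
  have hmp0 : 0 ≤ mp := by
    rw [hmp]
    exact Real.circleAverage_nonneg_of_nonneg fun _ _ => Real.posLog_nonneg
  have hTP1 : (sp c e).map (Int.castRingHom ℂ) = TP c e (yv (fun _ => 0) (fun _ => 0) (ep 0)) := by
    rw [← TP_one, TP_map]
    congr 1
    funext j
    simp [yv]
  have hes : ∀ t, Polynomial.eval (ep t) ((sp c e).map (Int.castRingHom ℂ)) = es C E t := by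
    intro t
    rw [hTP1, eval_TP]
    unfold FF es
    refine Finset.sum_congr rfl fun j _ => ?_
    simp only [hC, hE, Pi.add_apply, Pi.smul_apply, ic, smul_eq_mul]
    congr 2
    push_cast
    ring
  have hmp_eq2 : mp = ∫ t in (0:ℝ)..1, Real.log (max ‖es C E t‖ 1) := by
    rw [hmp_eq]
    refine intervalIntegral.integral_congr fun t _ => ?_
    simp only [hes]
    rw [Real.posLog_eq_log_max_one (norm_nonneg _), max_comm]
  have hlm_le_mp : lm (sp c e) ≤ mp := by
    unfold lm
    rw [hmp_eq2]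
    apply lmm_le
    · rw [Ne, Polynomial.map_eq_zero_iff (RingHom.injective_int _)]
      exact hsp0
    · exact log_max_cont C E one_pos
    · intro t ht
      rw [hes] at ht ⊢
      exact Real.log_le_log (norm_pos_iff.mpr ht) (le_max_left _ _)
  have hbase' : PL [E, one1] (gg C δ') 0 ≤ mp + (r * Real.log 2) * (40 * r * s) := by
    rcases le_total δ 1 with h | h
    · have : δ' = 1 := max_eq_right h
      rw [PL_pair C hδ' E, this, ← hmp_eq2]
      linarith
    · have : δ' = δ := max_eq_left h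
      rw [this]
      linarith
  -- the family
  have h1LL : (one1 : Fin (r + 1) → ℤ) ∈ LL l := h1l
  obtain ⟨n, w, hn, hw1, hw2⟩ := exists_family (by omega : 0 < r + 1) l h1LL
  have hpow : (2:ℝ) ^ (r - m) ≤ n := by
    have h1 : 2 ^ (r - m) ≤ 2 ^ (finrank ℝ (spn l) - 1) := by
      apply Nat.pow_le_pow_right (by norm_num)
      omega
    exact_mod_cast h1.trans hn
  refine hpow.trans ?_
  rcases Nat.lt_or_ge n 2 with hn2 | hn2
  · -- trivial case
    have h1 : (n:ℝ) ≤ 1 := by exact_mod_cast Nat.lt_succ_iff.mp hn2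
    have e3 : 1 ≤ (1 + mp) / η := by
      rw [le_div_iff₀ hη]
      linarith
    have hLg : 0 ≤ Real.log ((1 + mp) / η) := Real.log_nonneg e3
    have h2 : 1 ≤ 2 * 10 ^ 16 / η := by
      rw [le_div_iff₀ hη]
      linarith
    calc (n:ℝ) ≤ 1 := h1
      _ ≤ 2 * 10 ^ 16 / η * (1 + mp) := one_le_mul_of_one_le_of_one_le h2 (by linarith)
      _ ≤ 2 * 10 ^ 16 / η * (1 + mp) * (1 + Real.log ((1 + mp) / η)) := by
          apply le_mul_of_one_le_right _ (by linarith)
          positivity
  -- the degree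
  obtain ⟨jt, hjt⟩ := Finite.exists_max e
  obtain ⟨j0, hj0⟩ := exists_zero_exp hr c hc e he hirr
  set D := e jt with hDdef
  have hDpos : 0 < D := by
    by_contra hcon
    have h1 : ∀ j, e j = 0 := fun j => by
      have := hjt j
      omega
    have h2 : (⟨0, by omega⟩ : Fin (r + 1)) = ⟨1, by omega⟩ := he (by rw [h1, h1])
    simp at h2
  obtain ⟨b, hb⟩ := exists_generic c he hDpos hjt jt rfl hc (by rw [TP_one]; exact hirr) w hw2
  set e' : Fin (r + 1) → ℕ := fun j => ∑ i, b i * w i j with he'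
  set E' : Fin (r + 1) → ℤ := fun j => (e' j : ℤ) with hE'
  have hE'l : ic E' ∈ spn l := by
    have h1 : E' = ∑ i, (b i : ℤ) • (fun j => (w i j : ℤ)) := by
      funext j
      simp only [hE', he', Finset.sum_apply, Pi.smul_apply, smul_eq_mul]
      push_cast
      rfl
    have h2 : E' ∈ LL l := by
      rw [h1]
      exact Submodule.sum_mem _ fun i _ => Submodule.smul_mem _ _ (hw1 i)
    exact h2
  -- closeness
  have hVnn : 0 ≤ V := VB_nonneg (gg_VB C hδ hδL le_rfl)
  have hVB' : VB (gg C δ') V := by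
    have h1 := gg_VB C hδ' hδ'L le_rfl
    intro x y S α hy h0 h1'
    refine (h1 x y S α hy h0 h1').trans ?_
    rw [hV]
    apply mul_le_mul_of_nonneg_left _ (by positivity)
    apply Real.log_le_log (by positivity)
    apply div_le_div_of_nonneg_left hLpos.le hδ hδδ'
  have hmean : ∀ (δ₁ : ℝ) (hδ₁ : 0 < δ₁), VB (gg C δ₁) V → ∀ i,
      PL [E', E, one1] (gg C δ₁) ((1 / 2 : ℝ) • ic (fun j => (w i j : ℤ))) ≤
        PL [E, one1] (gg C δ₁) 0 + 2 * (K * (V / S)) := by
    intro δ₁ hδ₁ hVB i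
    have h1 := close3 hl1 hl2 hl3 hE'l (gg_good C hδ₁) hVB hS hSρ
      ((1 / 2 : ℝ) • ic (fun j => (w i j : ℤ)))
    have h2 := hl4 (gg C δ₁) V S (gg_good _ hδ₁) hVB hS hSρ 0
    have h3 : PL l (gg C δ₁) ((1 / 2 : ℝ) • ic (fun j => (w i j : ℤ))) = PL l (gg C δ₁) 0 := by
      have h4 : (1 / 2 : ℝ) • ic (fun j => (w i j : ℤ)) ∈ spn l :=
        Submodule.smul_mem _ _ (hw1 i)
      have h5 := Inv_apply (spn_le_Inv (gg_good C hδ₁) h4) 0
      rwa [zero_add] at h5
    rw [h3] at h1
    rw [abs_le] at h1 h2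
    have h6 : ((r + 1 : ℕ) : ℝ) * (V / S) = K * (V / S) := rfl
    linarith [h1.1, h2.2]
  set U : Fin n → ℝ → ℝ := fun i τ =>
    PP E (gg C δ) ((1 / 2 : ℝ) • ic (fun j => (w i j : ℤ)) + τ • ic E') with hU
  set Vf : Fin n → ℝ → ℝ := fun i τ =>
    PP E (gg C δ') ((1 / 2 : ℝ) • ic (fun j => (w i j : ℤ)) + τ • ic E') with hVf
  have hUint : ∀ i, ∫ τ in (0:ℝ)..1, U i τ ≤ lm (sp c e) + η := by
    intro i
    have h1 := hmean δ hδ (gg_VB C hδ hδL le_rfl) i
    have h2 : PL [E', E, one1] (gg C δ) ((1 / 2 : ℝ) • ic (fun j => (w i j : ℤ))) =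
        ∫ τ in (0:ℝ)..1, U i τ := by
      rw [PL_cons, PL_cons, PL_cons, PL_nil, PP_one]
      rfl
    rw [h2] at h1
    linarith
  have hVint : ∀ i, ∫ τ in (0:ℝ)..1, Vf i τ ≤ mp + η := by
    intro i
    have h1 := hmean δ' hδ' hVB' i
    have h2 : PL [E', E, one1] (gg C δ') ((1 / 2 : ℝ) • ic (fun j => (w i j : ℤ))) =
        ∫ τ in (0:ℝ)..1, Vf i τ := by
      rw [PL_cons, PL_cons, PL_cons, PL_nil, PP_one]
      rfl
    rw [h2] at h1
    linarith
  have hDR : (0:ℝ) < D := by exact_mod_cast hDpos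
  have hnR : (2:ℝ) ≤ n := by exact_mod_cast hn2
  apply numeric (D := D) (lm := lm (sp c e)) hnR hDR hη hη1 hmp0 hlm hlm0
  intro κ hκ0 hκ1
  have hmain := averaged c he hDpos hjt jt j0 rfl hj0 (hc jt) (hc j0) w e' hb hκ0 hκ1 U Vf
    (fun i => (PP_cont (gg_cont C hδ)).comp (by fun_prop))
    (fun i => (PP_cont (gg_cont C hδ')).comp (by fun_prop))
    (by
      intro i τ
      change _ ≤ ∫ t in (0:ℝ)..1, gg C δ ((1 / 2 : ℝ) • ic (fun j => (w i j : ℤ)) + τ • ic E' +
        t • ic E)
      apply lmm_le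
      · intro h0
        have h1 := TP_coeff c he (yv (w i) e' (ep τ)) jt
        rw [h0, Polynomial.coeff_zero] at h1
        have h2 : (c jt : ℂ) * yv (w i) e' (ep τ) jt ≠ 0 := by
          apply mul_ne_zero (hCne jt)
          unfold yv
          apply mul_ne_zero (pow_ne_zero _ (by norm_num))
          apply pow_ne_zero
          rw [← norm_pos_iff, ep_norm]
          exact one_pos
        exact h2 h1.symm
      · exact (gg_cont C hδ).comp (by fun_prop)
      · intro t ht
        rw [eval_TP] at ht ⊢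
        exact Real.log_le_log (norm_pos_iff.mpr ht) (le_max_left _ _))
    (by
      intro i τ
      rw [circle_int]
      change _ ≤ ∫ t in (0:ℝ)..1, gg C δ' ((1 / 2 : ℝ) • ic (fun j => (w i j : ℤ)) + τ • ic E' +
        t • ic E)
      apply intervalIntegral.integral_mono_on zero_le_one
      · apply Continuous.intervalIntegrable
        apply Real.continuous_posLog.comp
        apply Continuous.norm
        exact (Polynomial.continuous _).comp ep_cont
      · exact ((gg_cont C hδ').comp (by fun_prop)).intervalIntegrable _ _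
      · intro t _
        rw [eval_TP, Real.posLog_eq_log_max_one (norm_nonneg _)]
        apply Real.log_le_log (lt_max_of_lt_left one_pos)
        apply max_le
        · exact hδ'1.trans (le_max_right _ _)
        · exact le_max_left _ _)
  rw [Fintype.card_fin] at hmain
  refine hmain.trans ?_
  have hlogκ : 0 ≤ Real.log (1 / κ) := Real.log_nonneg (by rw [le_div_iff₀ hκ0]; linarith)
  have hterm : ∀ i : Fin n, (D * (93600000000000 * (2 + 4 * (∫ τ in (0:ℝ)..1, Vf i τ) +
        2 * ∫ τ in (0:ℝ)..1, U i τ) * (1 + Real.log (1 / κ))) +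
      2 * (n:ℝ) * D * (κ * (1300000000000 *
        (2 + 4 * (∫ τ in (0:ℝ)..1, Vf i τ) + 2 * ∫ τ in (0:ℝ)..1, U i τ))) +
      2 * D * ((n:ℝ) - 1) * ∫ τ in (0:ℝ)..1, U i τ) ≤
      D * (93600000000000 * (2 + 4 * (mp + η) + 2 * (lm (sp c e) + η)) * (1 + Real.log (1 / κ))) +
      2 * n * D * (κ * (1300000000000 * (2 + 4 * (mp + η) + 2 * (lm (sp c e) + η)))) +
      2 * D * (n - 1) * (lm (sp c e) + η) := by
    intro i
    have hUi := hUint i
    have hVi := hVint i
    have hW : 2 + 4 * (∫ τ in (0:ℝ)..1, Vf i τ) + 2 * ∫ τ in (0:ℝ)..1, U i τ ≤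
        2 + 4 * (mp + η) + 2 * (lm (sp c e) + η) := by linarith
    apply add_le_add
    · apply add_le_add
      · apply mul_le_mul_of_nonneg_left _ hDR.le
        apply mul_le_mul_of_nonneg_right _ (by linarith)
        linarith
      · apply mul_le_mul_of_nonneg_left _ (by positivity)
        apply mul_le_mul_of_nonneg_left _ hκ0.le
        linarith
    · apply mul_le_mul_of_nonneg_left hUi
      apply mul_nonneg (by positivity)
      linarith
  refine (Finset.sum_le_sum fun i _ => hterm i).trans (le_of_eq ?_)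
  rw [Finset.sum_const, Finset.card_univ, Fintype.card_fin, nsmul_eq_mul]

end Pool.Agent.Helper99.TD
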